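import Mathlib

/-! Integer certificates for quadratic inequalities, and the 3x3 minors of seven vectors. -/

namespace R758.Cube

/-- value of the linear form with coefficient list at a point (list of reals) -/
def dot : List Int → List ℝ → ℝ
  | [], _ => 0
  | _ :: _, [] => 0
  | a :: as, x :: xs => (a : ℝ) * x + dot as xs

/-- value of the quadratic form given by its upper triangular rows -/
def qf : List (List Int) → List ℝ → ℝ
  | [], _ => 0
  | _ :: _, [] => 0
  | r :: rs, x :: xs => x * dot r (x :: xs) + qf rs xs

@[simp] lemma dot_nil_right (r : List Int) : dot r [] = 0 := by cases r <;> rfl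
@[simp] lemma dot_nil_left (x : List ℝ) : dot [] x = 0 := by cases x <;> rfl
@[simp] lemma qf_nil_right (r : List (List Int)) : qf r [] = 0 := by cases r <;> rfl
@[simp] lemma qf_nil_left (x : List ℝ) : qf [] x = 0 := by cases x <;> rfl
lemma dot_cons (a : Int) (as : List Int) (x : ℝ) (xs : List ℝ) :
    dot (a :: as) (x :: xs) = (a : ℝ) * x + dot as xs := rfl
lemma qf_cons (r : List Int) (rs : List (List Int)) (x : ℝ) (xs : List ℝ) :
    qf (r :: rs) (x :: xs) = x * dot r (x :: xs) + qf rs xs := rfl

def addAt (m : Int) : Nat → List Int → List Int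
  | 0, [] => [m]
  | 0, a :: as => (a + m) :: as
  | n+1, [] => 0 :: addAt m n []
  | n+1, a :: as => a :: addAt m n as

lemma dot_addAt (m : Int) : ∀ (k : Nat) (r : List Int) (xs : List ℝ),
    dot (addAt m k r) xs = dot r xs + (m : ℝ) * xs.getD k 0
  | _, r, [] => by simp
  | 0, [], x :: xs => by simp [addAt, dot_cons]
  | 0, a :: as, x :: xs => by simp [addAt, dot_cons]; ring
  | n+1, [], x :: xs => by
      have := dot_addAt m n [] xs
      simp [addAt, dot_cons, this]
  | n+1, a :: as, x :: xs => by
      have := dot_addAt m n as xs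
      simp [addAt, dot_cons, this]; ring

/-- add the monomial `m x_i x_(i+k)` -/
def addMono (m : Int) (k : Nat) : Nat → List (List Int) → List (List Int)
  | 0, [] => [addAt m k []]
  | 0, r :: rs => addAt m k r :: rs
  | i+1, [] => [] :: addMono m k i []
  | i+1, r :: rs => r :: addMono m k i rs

lemma qf_addMono (m : Int) (k : Nat) : ∀ (i : Nat) (U : List (List Int)) (xs : List ℝ),
    qf (addMono m k i U) xs = qf U xs + (m : ℝ) * (xs.getD i 0 * xs.getD (i + k) 0)
  | _, U, [] => by simp
  | 0, [], x :: xs => by simp [addMono, qf_cons, dot_addAt]; ring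
  | 0, r :: rs, x :: xs => by simp [addMono, qf_cons, dot_addAt]; ring
  | i+1, [], x :: xs => by
      have := qf_addMono m k i [] xs
      have h : i + 1 + k = (i + k) + 1 := by ring
      simp [addMono, qf_cons, this, h]
  | i+1, r :: rs, x :: xs => by
      have := qf_addMono m k i rs xs
      have h : i + 1 + k = (i + k) + 1 := by ring
      simp [addMono, qf_cons, this, h]; ring

def addM (m : Int) (i j : Nat) (U : List (List Int)) : List (List Int) :=
  cond (Nat.ble i j) (addMono m (j - i) i U) (addMono m (i - j) j U)

lemma qf_addM (m : Int) (i j : Nat) (U : List (List Int)) (xs : List ℝ) :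
    qf (addM m i j U) xs = qf U xs + (m : ℝ) * (xs.getD i 0 * xs.getD j 0) := by
  unfold addM
  cases h : Nat.ble i j with
  | true =>
    have h' : i ≤ j := Nat.le_of_ble_eq_true h
    simp only [cond_true]
    rw [qf_addMono]
    rw [Nat.add_sub_cancel' h']
  | false =>
    have h' : j ≤ i := by
      by_contra hc
      have : Nat.ble i j = true := Nat.ble_eq_true_of_le (by omega)
      rw [h] at this; cases this
    simp only [cond_false]
    rw [qf_addMono, Nat.add_sub_cancel' h']
    ring

def axpyRow (m : Int) : List Int → List Int → List Int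
  | r, [] => r
  | [], s :: ss => (m * s) :: axpyRow m [] ss
  | r :: rs, s :: ss => (r + m * s) :: axpyRow m rs ss

lemma dot_axpyRow (m : Int) : ∀ (s r : List Int) (xs : List ℝ),
    dot (axpyRow m r s) xs = dot r xs + (m : ℝ) * dot s xs
  | s, r, [] => by simp
  | [], r, x :: xs => by cases r <;> simp [axpyRow]
  | s :: ss, [], x :: xs => by
      have := dot_axpyRow m ss [] xs
      simp [axpyRow, dot_cons, this]; ring
  | s :: ss, r :: rs, x :: xs => by
      have := dot_axpyRow m ss rs xs
      simp [axpyRow, dot_cons, this]; ring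

def axpyU (m : Int) : List (List Int) → List (List Int) → List (List Int)
  | r, [] => r
  | [], s :: ss => axpyRow m [] s :: axpyU m [] ss
  | r :: rs, s :: ss => axpyRow m r s :: axpyU m rs ss

lemma qf_axpyU (m : Int) : ∀ (s r : List (List Int)) (xs : List ℝ),
    qf (axpyU m r s) xs = qf r xs + (m : ℝ) * qf s xs
  | s, r, [] => by simp
  | [], r, x :: xs => by cases r <;> simp [axpyU]
  | s :: ss, [], x :: xs => by
      have := qf_axpyU m ss [] xs
      simp [axpyU, qf_cons, this, dot_axpyRow]; ring
  | s :: ss, r :: rs, x :: xs => by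
      have := qf_axpyU m ss rs xs
      simp [axpyU, qf_cons, this, dot_axpyRow]; ring

def sclRow (m : Int) : List Int → List Int
  | [] => []
  | a :: as => (m * a) :: sclRow m as

lemma dot_sclRow (m : Int) : ∀ (r : List Int) (xs : List ℝ),
    dot (sclRow m r) xs = (m : ℝ) * dot r xs
  | r, [] => by simp
  | [], x :: xs => by simp [sclRow]
  | r :: rs, x :: xs => by
      have := dot_sclRow m rs xs
      simp [sclRow, dot_cons, this]; ring

def sqU : List Int → List (List Int)
  | [] => []
  | b :: bs => ((b * b) :: sclRow (2 * b) bs) :: sqU bs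

lemma qf_sqU : ∀ (b : List Int) (xs : List ℝ), qf (sqU b) xs = (dot b xs) ^ 2
  | b, [] => by simp
  | [], x :: xs => by simp [sqU]
  | b :: bs, x :: xs => by
      have := qf_sqU bs xs
      simp [sqU, qf_cons, dot_cons, this, dot_sclRow]; ring

def diagU : List Int → List (List Int)
  | [] => []
  | d :: ds => [d] :: diagU ds

/-- list of absolute values -/
def absL : List Int → List Int
  | [] => []
  | a :: as => |a| :: absL as

def sumAbs : List Int → Int
  | [] => 0
  | a :: as => |a| + sumAbs as

def sq : List ℝ → List ℝ
  | [] => []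
  | x :: xs => x ^ 2 :: sq xs

lemma qf_diagU : ∀ (d : List Int) (xs : List ℝ), qf (diagU d) xs = dot d (sq xs)
  | d, [] => by simp [sq]
  | [], x :: xs => by simp [diagU]
  | d :: ds, x :: xs => by
      have := qf_diagU ds xs
      simp [diagU, qf_cons, dot_cons, this, sq]; ring

lemma sumAbs_nonneg : ∀ os : List Int, 0 ≤ sumAbs os
  | [] => le_refl _
  | a :: as => add_nonneg (abs_nonneg a) (sumAbs_nonneg as)

lemma cross_bound (x : ℝ) : ∀ (os : List Int) (xs : List ℝ),
    -((sumAbs os : ℝ) * x ^ 2) - dot (absL os) (sq xs) ≤ 2 * (x * dot os xs)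
  | [], xs => by simp [sumAbs, absL]
  | o :: os, [] => by
      have h := sumAbs_nonneg (o :: os)
      have h' : (0:ℝ) ≤ (sumAbs (o :: os) : ℝ) := by exact_mod_cast h
      simp [sq]
      positivity
  | o :: os, y :: ys => by
      have ih := cross_bound x os ys
      simp only [sumAbs, absL, dot_cons, sq]
      push_cast
      have h1 : (2 : ℝ) * (o * (x * y)) ≥ -(|(o:ℝ)| * (x ^ 2 + y ^ 2)) := by
        have h2 : |2 * ((o:ℝ) * (x * y))| ≤ |(o:ℝ)| * (x ^ 2 + y ^ 2) := by
          rw [abs_mul, abs_mul, abs_two]
          have h3 : 2 * |x * y| ≤ x ^ 2 + y ^ 2 := by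
            have : |x * y| = |x| * |y| := abs_mul x y
            rw [this]
            nlinarith [sq_nonneg (|x| - |y|), sq_abs x, sq_abs y]
          have h4 := mul_le_mul_of_nonneg_left h3 (abs_nonneg (o:ℝ))
          linarith
        linarith [neg_abs_le (2 * ((o:ℝ) * (x * y)))]
      nlinarith [h1, ih]

/-- the certificate checker: `U - Σ squares` is diagonally dominant -/
def chk : List (List Int) → List (List Int) → List Int → Bool
  | [], [], [] => true
  | (b :: bs) :: B, r :: rs, c :: cs =>
    match axpyRow (-1) r ((b * b) :: sclRow (2 * b) bs) with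
    | [] => false
    | d :: os =>
      (decide (sumAbs os + c ≤ 2 * d)) && chk B (axpyU (-1) rs (sqU bs)) (axpyRow 1 cs (absL os))
  | _, _, _ => false

theorem chk_sound : ∀ (B U : List (List Int)) (c : List Int) (xs : List ℝ),
    chk B U c = true → dot c (sq xs) ≤ 2 * qf U xs
  | B, U, c, [] => by intro _; simp [sq]
  | [], [], [], x :: xs => by intro _; simp
  | (b :: bs) :: B, r :: rs, c :: cs, x :: xs => by
      intro h
      unfold chk at h
      cases hr : axpyRow (-1) r ((b * b) :: sclRow (2 * b) bs) with
      | nil => rw [hr] at h; exact absurd h (by simp)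
      | cons d os =>
        rw [hr] at h
        simp only [Bool.and_eq_true, decide_eq_true_eq] at h
        obtain ⟨h1, h2⟩ := h
        have ih := chk_sound B _ _ xs h2
        rw [qf_axpyU, qf_sqU, dot_axpyRow] at ih
        have e1 : dot (d :: os) (x :: xs) = dot r (x :: xs) - (b * b * x + 2 * b * dot bs xs) := by
          rw [← hr, dot_axpyRow, dot_cons (b * b), dot_sclRow]
          push_cast; ring
        have hc := cross_bound x os xs
        have h1' : (sumAbs os : ℝ) + c ≤ 2 * d := by exact_mod_cast h1
        rw [dot_cons] at e1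
        rw [qf_cons]
        simp only [sq, dot_cons c]
        have e2 : dot r (x :: xs) = d * x + dot os xs + (b * b * x + 2 * b * dot bs xs) := by linarith
        rw [e2]
        push_cast at ih
        have h3 := mul_le_mul_of_nonneg_right h1' (sq_nonneg x)
        nlinarith [sq_nonneg ((b:ℝ) * x + dot bs xs), h3, hc, ih]
  | [], [], c :: cs, x :: xs => by intro h; simp [chk] at h
  | [], r :: rs, c, x :: xs => by intro h; simp [chk] at h
  | [] :: B, U, c, x :: xs => by intro h; simp [chk] at h
  | (b :: bs) :: B, [], c, x :: xs => by intro h; simp [chk] at h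
  | (b :: bs) :: B, r :: rs, [], x :: xs => by intro h; simp [chk] at h

end R758.Cube
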