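import Pool.Agent.R758.Cube.Norm
import Pool.Agent.R758.Cube.Data
import Pool.Agent.R758.Cube.TreeData

/-! The inequality for arbitrary configurations of seven vectors. -/

namespace R758.Cube

def S1 (v : ℕ → Fin 3 → ℝ) : ℝ :=
  ∑ i ∈ Finset.range 7, ∑ j ∈ Finset.range 7, ∑ k ∈ Finset.range 7, |D v i j k|

def SD (v : ℕ → Fin 3 → ℝ) (a : ℕ) : ℝ :=
  ∑ j ∈ Finset.range 7, ∑ k ∈ Finset.range 7, (D v a j k) ^ 2

/-- sum over two indices of a symmetric function -/
lemma sum2 (h : ℕ → ℕ → ℝ) (hs : ∀ i j, h i j = h j i) (hd : ∀ i, h i i = 0) : ∀ n : ℕ,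
    ∑ i ∈ Finset.range n, ∑ j ∈ Finset.range n, h i j =
      2 * ∑ j ∈ Finset.range n, ∑ i ∈ Finset.range j, h i j
  | 0 => by simp
  | n + 1 => by
      have ih := sum2 h hs hd n
      simp only [Finset.sum_range_succ, Finset.sum_add_distrib] at ih ⊢
      rw [hd n, ih]
      have e : ∑ x ∈ Finset.range n, h n x = ∑ x ∈ Finset.range n, h x n :=
        Finset.sum_congr rfl fun x _ => hs n x
      rw [e]; ring

/-- sum over three indices of a symmetric function vanishing on diagonals -/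
lemma sum3 (g : ℕ → ℕ → ℕ → ℝ) (h12 : ∀ i j k, g i j k = g j i k)
    (h23 : ∀ i j k, g i j k = g i k j) (hd : ∀ i k, g i i k = 0) : ∀ n : ℕ,
    ∑ i ∈ Finset.range n, ∑ j ∈ Finset.range n, ∑ k ∈ Finset.range n, g i j k =
      6 * ∑ k ∈ Finset.range n, ∑ j ∈ Finset.range k, ∑ i ∈ Finset.range j, g i j k
  | 0 => by simp
  | n + 1 => by
      have ih := sum3 g h12 h23 hd n
      have hdd : ∀ i k, g k i i = 0 := fun i k => by rw [h12, h23]; exact hd i k
      have hd3 : ∀ i k, g i k i = 0 := fun i k => by rw [h23]; exact hd i k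
      have h2 := sum2 (fun i j => g i j n) (fun i j => h12 i j n) (fun i => hd i n) n
      simp only [Finset.sum_range_succ, Finset.sum_add_distrib] at ih h2 ⊢
      simp only [hd, hd3, hdd, Finset.sum_const_zero, add_zero]
      have e1 : ∑ x ∈ Finset.range n, ∑ y ∈ Finset.range n, g x n y =
          ∑ x ∈ Finset.range n, ∑ y ∈ Finset.range n, g x y n :=
        Finset.sum_congr rfl fun x _ => Finset.sum_congr rfl fun y _ => h23 x n y
      have e2 : ∑ x ∈ Finset.range n, ∑ y ∈ Finset.range n, g n x y =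
          ∑ x ∈ Finset.range n, ∑ y ∈ Finset.range n, g x y n :=
        Finset.sum_congr rfl fun x _ => Finset.sum_congr rfl fun y _ => by rw [h12, h23]
      rw [e1, e2, ih, h2]
      ring

/-- the sum over the list of triples -/
lemma sumL (g : ℕ → ℕ → ℕ → ℝ) :
    ∑ k ∈ Finset.range 7, ∑ j ∈ Finset.range k, ∑ i ∈ Finset.range j, g i j k =
      (L35.map fun t => g t.1 t.2.1 t.2.2).sum := by
  simp only [Finset.sum_range_succ, Finset.sum_range_zero, L35, List.map_cons, List.map_nil,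
    List.sum_cons, List.sum_nil]
  ring

lemma sum3L (g : ℕ → ℕ → ℕ → ℝ) (h12 : ∀ i j k, g i j k = g j i k)
    (h23 : ∀ i j k, g i j k = g i k j) (hd : ∀ i k, g i i k = 0) :
    ∑ i ∈ Finset.range 7, ∑ j ∈ Finset.range 7, ∑ k ∈ Finset.range 7, g i j k =
      6 * (L35.map fun t => g t.1 t.2.1 t.2.2).sum := by
  rw [sum3 g h12 h23 hd, sumL]

lemma S1_eq (v : ℕ → Fin 3 → ℝ) :
    S1 v = 6 * (L35.map fun t => |D v t.1 t.2.1 t.2.2|).sum := by
  unfold S1
  rw [sum3L (fun i j k => |D v i j k|)]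
  · intro i j k; rw [D_swap12, abs_neg]
  · intro i j k; rw [D_swap23, abs_neg]
  · intro i k; rw [D_rep12, abs_zero]

lemma dot_map (f : ℕ × ℕ × ℕ → Int) (g : ℕ × ℕ × ℕ → ℝ) : ∀ L : List (ℕ × ℕ × ℕ),
    dot (L.map f) (L.map g) = (L.map fun t => (f t : ℝ) * g t).sum
  | [] => by simp
  | t :: L => by
      have := dot_map f g L
      simp [dot_cons, this]

lemma sq_map (g : ℕ × ℕ × ℕ → ℝ) : ∀ L : List (ℕ × ℕ × ℕ),
    sq (L.map g) = L.map fun t => g t ^ 2
  | [] => rfl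
  | t :: L => by simp [sq, sq_map g L]

lemma wts_eq (lam : List Int) (v : ℕ → Fin 3 → ℝ) :
    2 * dot (wts lam) (sq (xs v)) =
      ∑ a ∈ Finset.range 7, (lam.getD a 0 : ℝ) * SD v a := by
  unfold wts xs
  rw [sq_map, dot_map]
  have h := sum3L (fun i j k => ((lam.getD i 0 : ℝ) + (lam.getD j 0 + lam.getD k 0)) *
    (D v i j k) ^ 2) ?_ ?_ ?_
  · simp only [Int.cast_add]
    have h1 : ∀ f : ℕ → ℕ → ℕ → ℝ, (∀ i j k, f i j k = f j i k) → (∀ i j k, f i j k = f i k j) →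
        ∑ i ∈ Finset.range 7, ∑ j ∈ Finset.range 7, ∑ k ∈ Finset.range 7,
          ((lam.getD i 0 : ℝ) + (lam.getD j 0 + lam.getD k 0)) * f i j k =
        3 * ∑ i ∈ Finset.range 7, (lam.getD i 0 : ℝ) *
          ∑ j ∈ Finset.range 7, ∑ k ∈ Finset.range 7, f i j k := by
      intro f f12 f23
      simp only [add_mul, Finset.sum_add_distrib, Finset.mul_sum]
      have e1 : ∑ i ∈ Finset.range 7, ∑ j ∈ Finset.range 7, ∑ k ∈ Finset.range 7,
          (lam.getD j 0 : ℝ) * f i j k = ∑ i ∈ Finset.range 7, ∑ j ∈ Finset.range 7,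
          ∑ k ∈ Finset.range 7, (lam.getD i 0 : ℝ) * f i j k := by
        rw [Finset.sum_comm]
        refine Finset.sum_congr rfl fun i _ => Finset.sum_congr rfl fun j _ =>
          Finset.sum_congr rfl fun k _ => ?_
        rw [f12]
      have e2 : ∑ i ∈ Finset.range 7, ∑ j ∈ Finset.range 7, ∑ k ∈ Finset.range 7,
          (lam.getD k 0 : ℝ) * f i j k = ∑ i ∈ Finset.range 7, ∑ j ∈ Finset.range 7,
          ∑ k ∈ Finset.range 7, (lam.getD i 0 : ℝ) * f i j k := by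
        rw [← e1]
        refine Finset.sum_congr rfl fun i _ => ?_
        rw [Finset.sum_comm]
        refine Finset.sum_congr rfl fun j _ => Finset.sum_congr rfl fun k _ => ?_
        rw [f23]
      rw [e1, e2]
      simp only [← Finset.mul_sum, ← Finset.sum_add_distrib]
      rw [Finset.mul_sum]
      refine Finset.sum_congr rfl fun i _ => ?_
      ring
    rw [h1 (fun i j k => (D v i j k) ^ 2) (fun i j k => by rw [D_swap12]; ring)
      (fun i j k => by rw [D_swap23]; ring)] at h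
    unfold SD
    linarith
  · intro i j k; rw [D_swap12 v i j k]; ring
  · intro i j k; rw [D_swap23 v i j k]; ring
  · intro i k; rw [D_rep12]; ring

lemma S1_act (s : ℕ → Bool) {p : ℕ → ℕ} (hp : PermOn p) (v : ℕ → Fin 3 → ℝ) :
    S1 (act s p v) = S1 v := by
  have h : ∀ i j k, |D (act s p v) i j k| = |D v (p i) (p j) (p k)| := by
    intro i j k
    rw [D_act, abs_mul, abs_mul, abs_mul, abs_S, abs_S, abs_S]; ring
  unfold S1
  simp only [h]
  rw [hp.sum (fun i => ∑ j ∈ Finset.range 7, ∑ k ∈ Finset.range 7, |D v i (p j) (p k)|)]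
  refine Finset.sum_congr rfl fun i _ => ?_
  rw [hp.sum (fun j => ∑ k ∈ Finset.range 7, |D v i j (p k)|)]
  refine Finset.sum_congr rfl fun j _ => ?_
  rw [hp.sum (fun k => |D v i j k|)]

lemma SD_act (s : ℕ → Bool) {p : ℕ → ℕ} (hp : PermOn p) (v : ℕ → Fin 3 → ℝ) (a : ℕ) :
    SD (act s p v) a = SD v (p a) := by
  have h : ∀ i j k, (D (act s p v) i j k) ^ 2 = (D v (p i) (p j) (p k)) ^ 2 := by
    intro i j k
    rw [D_act]
    have e : (S (s i) * S (s j) * S (s k) * D v (p i) (p j) (p k)) ^ 2 =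
      (S (s i) * S (s i)) * (S (s j) * S (s j)) * (S (s k) * S (s k)) *
        (D v (p i) (p j) (p k)) ^ 2 := by ring
    rw [e, S_mul_self, S_mul_self, S_mul_self]; ring
  unfold SD
  simp only [h]
  rw [hp.sum (fun j => ∑ k ∈ Finset.range 7, (D v (p a) j (p k)) ^ 2)]
  refine Finset.sum_congr rfl fun j _ => ?_
  rw [hp.sum (fun k => (D v (p a) j k) ^ 2)]

/-- multipliers of the classes -/
def kapL : List Int := [300, 15, 15, 15, 15, 15, 15, 15, 15, 15, 15]
def lamL : List (List Int) := [lam0, lam1, lam2, lam3, lam4, lam5, lam6, lam7, lam8, lam9, lam10]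

lemma cls_all (c : ℕ) (hc : c < 11) (v : ℕ → Fin 3 → ℝ) :
    ((kapL.getD c 0 : Int) : ℝ) * (dot (chiL (repsL.getD c 0)) (xs v)) ^ 2 ≤
      dot (wts (lamL.getD c [])) (sq (xs v)) := by
  interval_cases c
  · exact clsOK_sound RL RL_ok _ _ _ _ _ _ cls0 v
  · exact clsOK_sound RL RL_ok _ _ _ _ _ _ cls1 v
  · exact clsOK_sound RL RL_ok _ _ _ _ _ _ cls2 v
  · exact clsOK_sound RL RL_ok _ _ _ _ _ _ cls3 v
  · exact clsOK_sound RL RL_ok _ _ _ _ _ _ cls4 v
  · exact clsOK_sound RL RL_ok _ _ _ _ _ _ cls5 v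
  · exact clsOK_sound RL RL_ok _ _ _ _ _ _ cls6 v
  · exact clsOK_sound RL RL_ok _ _ _ _ _ _ cls7 v
  · exact clsOK_sound RL RL_ok _ _ _ _ _ _ cls8 v
  · exact clsOK_sound RL RL_ok _ _ _ _ _ _ cls9 v
  · exact clsOK_sound RL RL_ok _ _ _ _ _ _ cls10 v

lemma S1_sq_le {c : ℕ} (hc : c < 11) {w : ℕ → Fin 3 → ℝ}
    (h : ∀ t ∈ L35, 0 < S (bit3 (repsL.getD c 0) t.1 t.2.1 t.2.2) * D w t.1 t.2.1 t.2.2) :
    ((kapL.getD c 0 : Int) : ℝ) * (S1 w) ^ 2 ≤
      18 * ∑ a ∈ Finset.range 7, (((lamL.getD c []).getD a 0 : Int) : ℝ) * SD w a := by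
  have h1 := cls_all c hc w
  have h2 : dot (chiL (repsL.getD c 0)) (xs w) = (L35.map fun t => |D w t.1 t.2.1 t.2.2|).sum := by
    unfold chiL xs
    rw [dot_map]
    congr 1
    apply List.map_congr_left
    intro t ht
    have := h t ht
    have hcast : (((cond (bit3 (repsL.getD c 0) t.1 t.2.1 t.2.2) (-1) 1 : Int)) : ℝ) =
        S (bit3 (repsL.getD c 0) t.1 t.2.1 t.2.2) := by
      cases bit3 (repsL.getD c 0) t.1 t.2.1 t.2.2 <;> simp
    rw [hcast]
    rw [← abs_of_pos this, abs_mul, abs_S, one_mul]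
  rw [h2] at h1
  rw [← wts_eq, S1_eq]
  nlinarith [h1]

/-- the inequality with class and relabelling -/
def Ineq (v : ℕ → Fin 3 → ℝ) (c : Fin 11) (q : Fin 7 → Fin 7) : Prop :=
  ((kapL.getD c 0 : Int) : ℝ) * (S1 v) ^ 2 ≤
      18 * ∑ a : Fin 7, (((lamL.getD c []).getD a 0 : Int) : ℝ) * SD v (q a)

theorem ineq_of_GP {v : ℕ → Fin 3 → ℝ} (h : GP v) : ∃ c q, Ineq v c q := by
  obtain ⟨c, hc, s, p, hp, hh⟩ := classify repsL theTree tree_ok h
  have hc' : c < 11 := hc
  refine ⟨⟨c, hc'⟩, fun a => ⟨p a, hp.1 a a.2⟩, ?_⟩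
  have h1 := S1_sq_le hc' hh
  unfold Ineq
  rw [S1_act s hp] at h1
  simp only [SD_act s hp] at h1
  rw [Finset.sum_range] at h1
  exact h1

/-- the moment curve -/
def mom : ℕ → Fin 3 → ℝ := fun i => ![1, (i : ℝ), (i : ℝ) ^ 2]

lemma D_mom (i j k : ℕ) (h1 : i < j) (h2 : j < k) : D mom i j k ≠ 0 := by
  have e : D mom i j k = ((j:ℝ) - i) * ((k:ℝ) - i) * ((k:ℝ) - j) := by
    simp [D, mom]; ring
  rw [e]
  have a : (i:ℝ) < j := by exact_mod_cast h1
  have b : (j:ℝ) < k := by exact_mod_cast h2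
  have : 0 < ((j:ℝ) - i) * ((k:ℝ) - i) * ((k:ℝ) - j) :=
    mul_pos (mul_pos (by linarith) (by linarith)) (by linarith)
  exact this.ne'

/-- perturbation -/
def pert (v : ℕ → Fin 3 → ℝ) (e : ℝ) : ℕ → Fin 3 → ℝ := fun i a => v i a + e * mom i a

lemma pert_finite (v : ℕ → Fin 3 → ℝ) (i j k : ℕ) (h1 : i < j) (h2 : j < k) :
    {e : ℝ | D (pert v e) i j k = 0}.Finite := by
  set v0 := v with hv0
  -- coefficients
  set f : Polynomial ℝ := Polynomial.C (D v i j k)
    + Polynomial.C ((D (pert v 1) i j k - D (pert v (-1)) i j k) / 2 - D mom i j k) * Polynomial.X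
    + Polynomial.C ((D (pert v 1) i j k + D (pert v (-1)) i j k) / 2 - D v i j k)
      * Polynomial.X ^ 2
    + Polynomial.C (D mom i j k) * Polynomial.X ^ 3 with hf
  have hev : ∀ e, f.eval e = D (pert v e) i j k := by
    intro e
    simp only [hf, Polynomial.eval_add, Polynomial.eval_mul, Polynomial.eval_C,
      Polynomial.eval_X, Polynomial.eval_pow, D, pert]
    ring
  have hne : f ≠ 0 := by
    intro h0
    have hc : f.coeff 3 = D mom i j k := by
      rw [hf]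
      simp only [Polynomial.coeff_add, Polynomial.coeff_C_mul, Polynomial.coeff_C,
        Polynomial.coeff_X, Polynomial.coeff_X_pow]
      norm_num
    rw [h0] at hc
    exact D_mom i j k h1 h2 (by simpa using hc.symm)
  refine (f.roots.toFinset.finite_toSet).subset ?_
  intro e he
  have : f.eval e = 0 := by rw [hev]; exact he
  simp only [Finset.mem_coe, Multiset.mem_toFinset]
  exact (Polynomial.mem_roots hne).mpr this

theorem ineq_all (v : ℕ → Fin 3 → ℝ) : ∃ c q, Ineq v c q := by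
  have hcont : ∀ i j k, Continuous fun e : ℝ => D (pert v e) i j k := by
    intro i j k
    unfold D pert
    fun_prop
  have hclosed : IsClosed (⋃ cq : Fin 11 × (Fin 7 → Fin 7), {e : ℝ | Ineq (pert v e) cq.1 cq.2}) := by
    apply isClosed_iUnion_of_finite
    intro cq
    unfold Ineq S1 SD
    apply isClosed_le
    · have := hcont
      fun_prop
    · have := hcont
      fun_prop
  have hfin : (⋃ t : Fin 7 × Fin 7 × Fin 7, {e : ℝ | t.1 < t.2.1 ∧ t.2.1 < t.2.2 ∧
      D (pert v e) t.1 t.2.1 t.2.2 = 0}).Finite := by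
    apply Set.finite_iUnion
    intro t
    by_cases h : t.1 < t.2.1 ∧ t.2.1 < t.2.2
    · exact (pert_finite v t.1 t.2.1 t.2.2 h.1 h.2).subset fun e he => he.2.2
    · convert Set.finite_empty
      ext e
      simp only [Set.mem_ofPred_eq, Set.mem_empty_iff_false, iff_false]
      rintro ⟨a, b, _⟩
      exact h ⟨a, b⟩
  have hdense := Set.Countable.dense_compl ℝ hfin.countable
  have hsub : (⋃ t : Fin 7 × Fin 7 × Fin 7, {e : ℝ | t.1 < t.2.1 ∧ t.2.1 < t.2.2 ∧
      D (pert v e) t.1 t.2.1 t.2.2 = 0})ᶜ ⊆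
      ⋃ cq : Fin 11 × (Fin 7 → Fin 7), {e : ℝ | Ineq (pert v e) cq.1 cq.2} := by
    intro e he
    have hG : GP (pert v e) := by
      intro i j k h1 h2 h3 h0
      apply he
      rw [Set.mem_iUnion]
      exact ⟨(⟨i, by omega⟩, ⟨j, by omega⟩, ⟨k, h3⟩), h1, h2, h0⟩
    obtain ⟨c, q, h⟩ := ineq_of_GP hG
    rw [Set.mem_iUnion]
    exact ⟨(c, q), h⟩
  have h0 : (0:ℝ) ∈ ⋃ cq : Fin 11 × (Fin 7 → Fin 7), {e : ℝ | Ineq (pert v e) cq.1 cq.2} := by
    have := hdense.mono hsub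
    rw [← hclosed.closure_eq]
    exact this 0
  rw [Set.mem_iUnion] at h0
  obtain ⟨cq, h⟩ := h0
  refine ⟨cq.1, cq.2, ?_⟩
  have e : pert v 0 = v := by funext i a; simp [pert]
  rw [Set.mem_ofPred_eq, e] at h
  exact h

lemma class_bound : ∀ c : Fin 11,
    0 < kapL.getD c 0 ∧ 15 * (∑ a : Fin 7, (lamL.getD c []).getD a 0) ≤ 1099 * kapL.getD c 0 := by
  decide +kernel

/-- the bound for configurations with all `SD v a` equal to `6/7` -/
theorem main_bound (v : ℕ → Fin 3 → ℝ) (h : ∀ a < 7, SD v a = 6 / 7) :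
    (S1 v) ^ 2 ≤ 36 * (157 / 5) := by
  obtain ⟨c, q, hI⟩ := ineq_all v
  unfold Ineq at hI
  have hs : ∀ a : Fin 7, SD v (q a) = 6 / 7 := fun a => h _ (q a).2
  simp only [hs] at hI
  rw [← Finset.sum_mul] at hI
  obtain ⟨hk, hl⟩ := class_bound c
  have hk' : (0:ℝ) < ((kapL.getD c 0 : Int) : ℝ) := by exact_mod_cast hk
  have hl' : 15 * (∑ a : Fin 7, (((lamL.getD c []).getD a 0 : Int) : ℝ)) ≤
      1099 * ((kapL.getD c 0 : Int) : ℝ) := by exact_mod_cast hl
  have h3 : ((kapL.getD c 0 : Int) : ℝ) * (S1 v) ^ 2 ≤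
      ((kapL.getD c 0 : Int) : ℝ) * (36 * (157 / 5)) := by
    linarith
  exact le_of_mul_le_mul_left h3 hk'

end R758.Cube
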