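import Pool.Agent.H354R3.ZN.All
import Pool.Agent.R758.Cube.Main

/-! Volume of the projection of the cube; tight frames. -/

set_option autoImplicit false

namespace R758.Cube

open MeasureTheory
open scoped Pointwise

/-- the zonotope `Σ [0, p_i]` -/
def zonotope {d n : ℕ} (p : Fin n → EuclideanSpace ℝ (Fin d)) : Set (EuclideanSpace ℝ (Fin d)) :=
  {x | ∃ t : Fin n → ℝ, (∀ j, 0 ≤ t j ∧ t j ≤ 1) ∧ x = ∑ j, t j • p j}

lemma isCompact_zonotope {d n : ℕ} (p : Fin n → EuclideanSpace ℝ (Fin d)) :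
    IsCompact (zonotope p) := by
  have h : zonotope p = (fun t : Fin n → ℝ => ∑ j, t j • p j) ''
      (Set.univ.pi fun _ => Set.Icc (0 : ℝ) 1) := by
    ext x
    constructor
    · rintro ⟨t, ht, rfl⟩
      exact ⟨t, fun j _ => ht j, rfl⟩
    · rintro ⟨t, ht, rfl⟩
      exact ⟨t, fun j => ht j (Set.mem_univ j), rfl⟩
  rw [h]
  refine (isCompact_univ_pi fun _ => isCompact_Icc).image ?_
  exact continuous_finsetSum _ fun j _ => (continuous_apply j).smul continuous_const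

theorem volume_zonotope {m n : ℕ} (p : Fin n → EuclideanSpace ℝ (Fin (m + 1)))
    (hD : 0 < H354ZN.Dt fun i => (p i).ofLp) :
    volume (zonotope p) = ENNReal.ofReal (H354ZN.Dt fun i => (p i).ofLp) := by
  set z : Fin n → Fin (m + 1) → ℝ := fun i => (p i).ofLp with hz
  have h1 : volume.real (H354ZN.Zon z) = 2 ^ (m + 1) * H354ZN.Dt z :=
    le_antisymm (H354ZN.a_VOL m n z hD) (H354ZN.a_TILE m n z)
  have hfin : volume (H354ZN.Zon z) ≠ ⊤ := (H354ZN.VOL_compact z).measure_lt_top.ne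
  have h2 : volume (H354ZN.Zon z) = ENNReal.ofReal (2 ^ (m + 1) * H354ZN.Dt z) := by
    rw [← h1, Measure.real, ENNReal.ofReal_toReal hfin]
  have h3 : (WithLp.toLp 2) ⁻¹' (zonotope p) =
      (fun y => (∑ i, (1 / 2 : ℝ) • z i) + y) '' ((1 / 2 : ℝ) • H354ZN.Zon z) := by
    ext y
    constructor
    · rintro ⟨t, ht, hy⟩
      refine ⟨(1 / 2 : ℝ) • ∑ j, (2 * t j - 1) • z j, Set.smul_mem_smul_set ⟨_, fun j => ?_, rfl⟩, ?_⟩
      · rw [abs_le]
        constructor <;> linarith [(ht j).1, (ht j).2]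
      · have hy' : y = ∑ i, t i • z i := by
          have := congrArg WithLp.ofLp hy
          simpa [hz] using this
        rw [hy']
        simp only
        rw [Finset.smul_sum, ← Finset.sum_add_distrib]
        refine Finset.sum_congr rfl fun i _ => ?_
        rw [smul_smul, ← add_smul]
        congr 1
        ring
    · rintro ⟨_, ⟨_, ⟨t, ht, rfl⟩, rfl⟩, rfl⟩
      refine ⟨fun i => (t i + 1) / 2, fun i => ?_, ?_⟩
      · have := abs_le.1 (ht i)
        constructor <;> linarith [this.1, this.2]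
      · apply (WithLp.equiv 2 (Fin (m + 1) → ℝ)).injective
        simp only [WithLp.equiv_apply]
        rw [WithLp.ofLp_sum]
        simp only [WithLp.ofLp_smul]
        rw [Finset.smul_sum, ← Finset.sum_add_distrib]
        refine Finset.sum_congr rfl fun i _ => ?_
        rw [smul_smul, ← add_smul]
        congr 1
        ring
  rw [← (PiLp.volume_preserving_toLp (Fin (m + 1))).measure_preimage
    (isCompact_zonotope p).measurableSet.nullMeasurableSet, h3, Set.image_add_left,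
    measure_preimage_add, Measure.addHaar_smul, h2, ← ENNReal.ofReal_mul (abs_nonneg _)]
  congr 1
  rw [Module.finrank_fin_fun, abs_of_nonneg (by positivity), ← mul_assoc, ← mul_pow]
  norm_num

/-- extension by zero of seven vectors -/
def ext7 (z : Fin 7 → Fin 3 → ℝ) : ℕ → Fin 3 → ℝ := fun i => if h : i < 7 then z ⟨i, h⟩ else 0

lemma ext7_coe (z : Fin 7 → Fin 3 → ℝ) (i : Fin 7) : ext7 z i = z i := by
  unfold ext7
  rw [dif_pos i.2]

lemma mem_L35 {i j k : ℕ} (h1 : i < j) (h2 : j < k) (h3 : k < 7) : (i, j, k) ∈ L35 :=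
  List.mem_of_getElem? (L35_ix h1 h2 h3)

lemma emb_eq {A : Finset (Fin 7)} (hA : A.card = 3) {i j k : Fin 7} (h1 : i < j) (h2 : j < k)
    (hi : i ∈ A) (hj : j ∈ A) (hk : k ∈ A) : (![i, j, k] : Fin 3 → Fin 7) = A.orderEmbOfFin hA := by
  apply Finset.orderEmbOfFin_unique
  · intro x
    fin_cases x
    · exact hi
    · exact hj
    · exact hk
  · rw [Fin.strictMono_iff_lt_succ]
    intro x
    fin_cases x
    · exact h1
    · exact h2

lemma DD_eq (z : Fin 7 → Fin 3 → ℝ) {A : Finset (Fin 7)} (hA : A.card = 3) {i j k : Fin 7}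
    (h1 : i < j) (h2 : j < k) (hi : i ∈ A) (hj : j ∈ A) (hk : k ∈ A) :
    H354ZN.DD (m := 2) z A = |D (ext7 z) i j k| := by
  unfold H354ZN.DD
  rw [dif_pos hA, ← emb_eq hA h1 h2 hi hj hk]
  congr 1
  rw [Matrix.det_fin_three]
  unfold D
  simp only [ext7_coe, Matrix.of_apply, Matrix.cons_val_zero, Matrix.cons_val_one,
    Matrix.cons_val_two]
  simp
  ring

lemma Dt_eq (z : Fin 7 → Fin 3 → ℝ) :
    H354ZN.Dt (m := 2) z = (L35.map fun t => |D (ext7 z) t.1 t.2.1 t.2.2|).sum := by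
  classical
  have hnd : L35.Nodup := by decide +kernel
  rw [← List.sum_toFinset _ hnd]
  unfold H354ZN.Dt H354ZN.Ps
  symm
  have hlt : ∀ t ∈ L35.toFinset, t.1 < t.2.1 ∧ t.2.1 < t.2.2 ∧ t.2.2 < 7 := fun t ht =>
    L35_mem (List.mem_toFinset.mp ht)
  have hcard : ∀ {i j k : Fin 7}, i < j → j < k → ({i, j, k} : Finset (Fin 7)).card = 3 := by
    intro i j k h1 h2
    rw [Finset.card_insert_of_notMem, Finset.card_pair h2.ne]
    simp only [Finset.mem_insert, Finset.mem_singleton, not_or]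
    exact ⟨h1.ne, (h1.trans h2).ne⟩
  refine Finset.sum_bij (fun t ht => {⟨t.1, by have := hlt t ht; omega⟩,
    ⟨t.2.1, by have := hlt t ht; omega⟩, ⟨t.2.2, (hlt t ht).2.2⟩}) ?_ ?_ ?_ ?_
  · intro t ht
    obtain ⟨a, b, c⟩ := hlt t ht
    rw [Finset.mem_powersetCard]
    exact ⟨Finset.subset_univ _, hcard (by rw [Fin.mk_lt_mk]; exact a) (by rw [Fin.mk_lt_mk]; exact b)⟩
  · intro t ht t' ht' he
    obtain ⟨a, b, c⟩ := hlt t ht
    obtain ⟨a', b', c'⟩ := hlt t' ht'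
    have hc := hcard (i := ⟨t.1, by omega⟩) (j := ⟨t.2.1, by omega⟩) (k := ⟨t.2.2, c⟩)
      (by rw [Fin.mk_lt_mk]; exact a) (by rw [Fin.mk_lt_mk]; exact b)
    have e1 := emb_eq hc (i := ⟨t.1, by omega⟩) (j := ⟨t.2.1, by omega⟩) (k := ⟨t.2.2, c⟩)
      (by rw [Fin.mk_lt_mk]; exact a) (by rw [Fin.mk_lt_mk]; exact b) (by simp) (by simp) (by simp)
    have e2 := emb_eq hc (i := ⟨t'.1, by omega⟩) (j := ⟨t'.2.1, by omega⟩) (k := ⟨t'.2.2, c'⟩)
      (by rw [Fin.mk_lt_mk]; exact a') (by rw [Fin.mk_lt_mk]; exact b')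
      (by rw [he]; simp) (by rw [he]; simp) (by rw [he]; simp)
    rw [← e1] at e2
    have f0 := congrFun e2 0
    have f1 := congrFun e2 1
    have f2 := congrFun e2 2
    simp at f0 f1 f2
    exact Prod.ext f0.symm (Prod.ext f1.symm f2.symm)
  · intro A hA
    rw [Finset.mem_powersetCard] at hA
    have hc : A.card = 3 := hA.2
    set f := A.orderEmbOfFin hc with hf
    have h01 : f 0 < f 1 := f.strictMono (by decide)
    have h12 : f 1 < f 2 := f.strictMono (by decide)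
    have hmem : ((f 0 : Fin 7).1, (f 1 : Fin 7).1, (f 2 : Fin 7).1) ∈ L35.toFinset :=
      List.mem_toFinset.mpr (mem_L35 h01 h12 (f 2).2)
    refine ⟨_, hmem, ?_⟩
    apply Finset.eq_of_subset_of_card_le
    · intro x hx
      simp only [Fin.eta, Finset.mem_insert, Finset.mem_singleton] at hx
      rcases hx with rfl | rfl | rfl <;> exact Finset.orderEmbOfFin_mem A hc _
    · rw [hc]
      exact (hcard (i := f 0) (j := f 1) (k := f 2) h01 h12).ge
  · intro t ht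
    obtain ⟨a, b, c⟩ := hlt t ht
    rw [DD_eq z (i := ⟨t.1, by omega⟩) (j := ⟨t.2.1, by omega⟩) (k := ⟨t.2.2, c⟩)
      (hcard (by rw [Fin.mk_lt_mk]; exact a) (by rw [Fin.mk_lt_mk]; exact b))
      (by rw [Fin.mk_lt_mk]; exact a) (by rw [Fin.mk_lt_mk]; exact b) (by simp) (by simp) (by simp)]

lemma Dt_eq_S1 (z : Fin 7 → Fin 3 → ℝ) : 6 * H354ZN.Dt (m := 2) z = S1 (ext7 z) := by
  rw [S1_eq, Dt_eq]

/-- tight frame -/
def Tight (v : ℕ → Fin 3 → ℝ) : Prop :=
  ∀ a b : Fin 3, ∑ i ∈ Finset.range 7, v i a * v i b = if a = b then 1 else 0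

lemma tight_form {v : ℕ → Fin 3 → ℝ} (h : Tight v) (w : Fin 3 → ℝ) :
    ∑ k ∈ Finset.range 7, (w 0 * v k 0 + w 1 * v k 1 + w 2 * v k 2) ^ 2 =
      w 0 ^ 2 + w 1 ^ 2 + w 2 ^ 2 := by
  have e : ∀ k, (w 0 * v k 0 + w 1 * v k 1 + w 2 * v k 2) ^ 2 =
      w 0 ^ 2 * (v k 0 * v k 0) + w 1 ^ 2 * (v k 1 * v k 1) + w 2 ^ 2 * (v k 2 * v k 2)
      + 2 * w 0 * w 1 * (v k 0 * v k 1) + 2 * w 0 * w 2 * (v k 0 * v k 2)
      + 2 * w 1 * w 2 * (v k 1 * v k 2) := by intro k; ring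
  simp only [e, Finset.sum_add_distrib, ← Finset.mul_sum]
  rw [h 0 0, h 1 1, h 2 2, h 0 1, h 0 2, h 1 2]
  simp

lemma tight_norm {v : ℕ → Fin 3 → ℝ} (h : Tight v) :
    ∑ k ∈ Finset.range 7, (v k 0 ^ 2 + v k 1 ^ 2 + v k 2 ^ 2) = 3 := by
  have e : ∀ k, v k 0 ^ 2 + v k 1 ^ 2 + v k 2 ^ 2 =
      v k 0 * v k 0 + v k 1 * v k 1 + v k 2 * v k 2 := by intro k; ring
  simp only [e, Finset.sum_add_distrib]
  rw [h 0 0, h 1 1, h 2 2]
  norm_num

lemma tight_SD {v : ℕ → Fin 3 → ℝ} (h : Tight v) (a : ℕ) :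
    SD v a = 2 * (v a 0 ^ 2 + v a 1 ^ 2 + v a 2 ^ 2) := by
  unfold SD
  have e1 : ∀ j, ∑ k ∈ Finset.range 7, (D v a j k) ^ 2 =
      (v a 0 ^ 2 + v a 1 ^ 2 + v a 2 ^ 2) * (v j 0 ^ 2 + v j 1 ^ 2 + v j 2 ^ 2)
      - (v a 0 * v j 0 + v a 1 * v j 1 + v a 2 * v j 2) ^ 2 := by
    intro j
    have := tight_form h ![v a 1 * v j 2 - v a 2 * v j 1, v a 2 * v j 0 - v a 0 * v j 2,
      v a 0 * v j 1 - v a 1 * v j 0]
    simp only [Matrix.cons_val_zero, Matrix.cons_val_one, Matrix.cons_val] at this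
    have e2 : ∀ k, (D v a j k) ^ 2 = ((v a 1 * v j 2 - v a 2 * v j 1) * v k 0 +
        (v a 2 * v j 0 - v a 0 * v j 2) * v k 1 + (v a 0 * v j 1 - v a 1 * v j 0) * v k 2) ^ 2 := by
      intro k; unfold D; ring
    simp only [e2]
    rw [this]; ring
  simp only [e1, Finset.sum_sub_distrib, ← Finset.mul_sum]
  rw [tight_norm h]
  have := tight_form h (v a)
  rw [this]; ring

end R758.Cube
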