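import Pool.Agent.R758.Cube.Cert

/-! 3x3 minors of seven vectors, Grassmann-Pluecker relations. -/

namespace R758.Cube

/-- determinant of the vectors `v i`, `v j`, `v k` -/
def D (v : ℕ → Fin 3 → ℝ) (i j k : ℕ) : ℝ :=
  v i 0 * (v j 1 * v k 2 - v j 2 * v k 1) - v i 1 * (v j 0 * v k 2 - v j 2 * v k 0)
    + v i 2 * (v j 0 * v k 1 - v j 1 * v k 0)

lemma D_swap12 (v : ℕ → Fin 3 → ℝ) (i j k : ℕ) : D v j i k = - D v i j k := by
  unfold D; ring

lemma D_swap23 (v : ℕ → Fin 3 → ℝ) (i j k : ℕ) : D v i k j = - D v i j k := by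
  unfold D; ring

lemma D_rep12 (v : ℕ → Fin 3 → ℝ) (i k : ℕ) : D v i i k = 0 := by
  unfold D; ring

lemma gp4 (v : ℕ → Fin 3 → ℝ) (a b c d e f : ℕ) :
    D v a b c * D v d e f - D v a b d * D v c e f + D v a b e * D v c d f
      - D v a b f * D v c d e = 0 := by
  unfold D; ring

/-- all triples `i < j < k < 7`, colexicographic -/
def L35 : List (ℕ × ℕ × ℕ) :=
  [(0,1,2),
   (0,1,3),(0,2,3),(1,2,3),
   (0,1,4),(0,2,4),(1,2,4),(0,3,4),(1,3,4),(2,3,4),
   (0,1,5),(0,2,5),(1,2,5),(0,3,5),(1,3,5),(2,3,5),(0,4,5),(1,4,5),(2,4,5),(3,4,5),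
   (0,1,6),(0,2,6),(1,2,6),(0,3,6),(1,3,6),(2,3,6),(0,4,6),(1,4,6),(2,4,6),(3,4,6),
   (0,5,6),(1,5,6),(2,5,6),(3,5,6),(4,5,6)]

/-- position of the sorted triple -/
def ix (i j k : ℕ) : ℕ := k * (k - 1) * (k - 2) / 6 + j * (j - 1) / 2 + i

lemma L35_ix' : ∀ k j i : Fin 7, i.1 < j.1 → j.1 < k.1 →
    L35[ix i j k]? = some (i.1, j.1, k.1) := by
  decide +kernel

lemma L35_ix {i j k : ℕ} (h1 : i < j) (h2 : j < k) (h3 : k < 7) :
    L35[ix i j k]? = some (i, j, k) :=
  L35_ix' ⟨k, h3⟩ ⟨j, h2.trans h3⟩ ⟨i, (h1.trans h2).trans h3⟩ h1 h2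

/-- the vector of minors -/
def xs (v : ℕ → Fin 3 → ℝ) : List ℝ := L35.map (fun t => D v t.1 t.2.1 t.2.2)

lemma xs_ix (v : ℕ → Fin 3 → ℝ) {i j k : ℕ} (h1 : i < j) (h2 : j < k) (h3 : k < 7) :
    (xs v).getD (ix i j k) 0 = D v i j k := by
  have h := L35_ix h1 h2 h3
  unfold xs
  rw [List.getD_eq_getElem?_getD, List.getElem?_map, h]
  rfl

/-- sort three indices: parity (`true` if odd), and the sorted triple; `none` if repeated -/
def srt (a b c : ℕ) : Option (Bool × ℕ × ℕ × ℕ) :=
  cond (Nat.ble (a + 1) b)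
    (cond (Nat.ble (b + 1) c) (some (false, a, b, c))
      (cond (Nat.ble (c + 1) b)
        (cond (Nat.ble (a + 1) c) (some (true, a, c, b))
          (cond (Nat.ble (c + 1) a) (some (false, c, a, b)) none))
        none))
    (cond (Nat.ble (b + 1) a)
      (cond (Nat.ble (a + 1) c) (some (true, b, a, c))
        (cond (Nat.ble (c + 1) a)
          (cond (Nat.ble (b + 1) c) (some (false, b, c, a))
            (cond (Nat.ble (c + 1) b) (some (true, c, b, a)) none))
          none))
      none)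

/-- real sign of a Bool: `true` is negative -/
def S (b : Bool) : ℝ := cond b (-1) 1

@[simp] lemma S_true : S true = -1 := rfl
@[simp] lemma S_false : S false = 1 := rfl
lemma S_xor (a b : Bool) : S (xor a b) = S a * S b := by cases a <;> cases b <;> simp
lemma S_mul_self (a : Bool) : S a * S a = 1 := by cases a <;> simp
lemma abs_S (a : Bool) : |S a| = 1 := by cases a <;> simp

lemma ble_t {a b : ℕ} (h : a < b) : Nat.ble (a + 1) b = true := Nat.ble_eq_true_of_le h
lemma ble_f {a b : ℕ} (h : b ≤ a) : Nat.ble (a + 1) b = false := by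
  cases hh : Nat.ble (a + 1) b with
  | false => rfl
  | true => have := Nat.le_of_ble_eq_true hh; omega

lemma srt_spec (a b c : ℕ) :
    (∃ s i j k, srt a b c = some (s, i, j, k) ∧ i < j ∧ j < k ∧ (∀ n, a < n → b < n → c < n → k < n) ∧
      ∀ v, D v a b c = S s * D v i j k) ∨
    (srt a b c = none ∧ (a = b ∨ b = c ∨ a = c) ∧ ∀ v, D v a b c = 0) := by
  have hbb : ∀ (v : ℕ → Fin 3 → ℝ) (x y : ℕ), D v x y y = 0 := by
    intro v x y; unfold D; ring
  have hxyx : ∀ (v : ℕ → Fin 3 → ℝ) (x y : ℕ), D v x y x = 0 := by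
    intro v x y; unfold D; ring
  rcases lt_trichotomy a b with hab | hab | hab
  · rcases lt_trichotomy b c with hbc | hbc | hbc
    · left
      refine ⟨false, a, b, c, ?_, hab, hbc, fun n _ _ h => h, fun v => by simp⟩
      simp [srt, ble_t hab, ble_t hbc]
    · right
      subst hbc
      refine ⟨?_, Or.inr (Or.inl rfl), fun v => hbb v a b⟩
      simp [srt, ble_t hab, ble_f (le_refl b)]
    · rcases lt_trichotomy a c with hac | hac | hac
      · left
        refine ⟨true, a, c, b, ?_, hac, hbc, fun n _ h _ => h, fun v => ?_⟩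
        · simp [srt, ble_t hab, ble_t hbc, ble_t hac, ble_f hbc.le]
        · rw [D_swap23]; simp
      · right
        subst hac
        refine ⟨?_, Or.inr (Or.inr rfl), fun v => hxyx v a b⟩
        simp [srt, ble_t hab, ble_f hbc.le, ble_f (le_refl a)]
      · left
        refine ⟨false, c, a, b, ?_, hac, hab, fun n _ h _ => h, fun v => ?_⟩
        · simp [srt, ble_t hab, ble_t hbc, ble_t hac, ble_f hbc.le, ble_f hac.le]
        · simp only [S_false, one_mul]; unfold D; ring
  · right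
    subst hab
    refine ⟨?_, Or.inl rfl, fun v => D_rep12 v a c⟩
    simp [srt, ble_f (le_refl a)]
  · rcases lt_trichotomy a c with hac | hac | hac
    · left
      refine ⟨true, b, a, c, ?_, hab, hac, fun n _ _ h => h, fun v => ?_⟩
      · simp [srt, ble_t hab, ble_t hac, ble_f hab.le]
      · rw [D_swap12]; simp
    · right
      subst hac
      refine ⟨?_, Or.inr (Or.inr rfl), fun v => hxyx v a b⟩
      simp [srt, ble_t hab, ble_f hab.le, ble_f (le_refl a)]
    · rcases lt_trichotomy b c with hbc | hbc | hbc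
      · left
        refine ⟨false, b, c, a, ?_, hbc, hac, fun n h _ _ => h, fun v => ?_⟩
        · simp [srt, ble_t hab, ble_t hbc, ble_t hac, ble_f hab.le, ble_f hac.le]
        · simp only [S_false, one_mul]; unfold D; ring
      · right
        subst hbc
        refine ⟨?_, Or.inr (Or.inl rfl), fun v => hbb v a b⟩
        simp [srt, ble_t hab, ble_f hab.le, ble_f (le_refl b)]
      · left
        refine ⟨true, c, b, a, ?_, hbc, hab, fun n h _ _ => h, fun v => ?_⟩
        · simp [srt, ble_t hab, ble_t hbc, ble_t hac, ble_f hab.le, ble_f hac.le, ble_f hbc.le]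
        · simp only [S_true]; unfold D; ring

/-- add `m [a b c] [d e f]` to the form -/
def addP (m : Int) (a b c d e f : ℕ) (U : List (List Int)) : List (List Int) :=
  match srt a b c, srt d e f with
  | some (s, i, j, k), some (s', i', j', k') =>
    addM (cond (xor s s') (-m) m) (ix i j k) (ix i' j' k') U
  | _, _ => U

lemma qf_addP (m : Int) {a b c d e f : ℕ} (ha : a < 7) (hb : b < 7) (hc : c < 7) (hd : d < 7)
    (he : e < 7) (hf : f < 7) (U : List (List Int)) (v : ℕ → Fin 3 → ℝ) :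
    qf (addP m a b c d e f U) (xs v) = qf U (xs v) + (m : ℝ) * (D v a b c * D v d e f) := by
  rcases srt_spec a b c with ⟨s, i, j, k, h1, hij, hjk, hk, hD⟩ | ⟨h1, -, hD⟩
  · rcases srt_spec d e f with ⟨s', i', j', k', h1', hij', hjk', hk', hD'⟩ | ⟨h1', -, hD'⟩
    · unfold addP
      rw [h1, h1']
      simp only
      rw [qf_addM, xs_ix v hij hjk (hk 7 ha hb hc), xs_ix v hij' hjk' (hk' 7 hd he hf), hD, hD']
      cases s <;> cases s' <;> simp
    · unfold addP
      rw [h1, h1', hD' v]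
      simp
  · unfold addP
    rw [h1, hD v]
    simp

/-- relation data -/
abbrev RelT := ℕ × ℕ × ℕ × ℕ × ℕ × ℕ

def okRel : RelT → Bool
  | (a, b, c, d, e, f) =>
    Nat.ble a 6 && Nat.ble b 6 && Nat.ble c 6 && Nat.ble d 6 && Nat.ble e 6 && Nat.ble f 6

def addRel (m : Int) : RelT → List (List Int) → List (List Int)
  | (a, b, c, d, e, f), U =>
    addP (-m) a b f c d e (addP m a b e c d f (addP (-m) a b d c e f (addP m a b c d e f U)))

lemma qf_addRel (m : Int) (r : RelT) (hr : okRel r = true) (U : List (List Int))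
    (v : ℕ → Fin 3 → ℝ) : qf (addRel m r U) (xs v) = qf U (xs v) := by
  obtain ⟨a, b, c, d, e, f⟩ := r
  simp only [okRel, Bool.and_eq_true] at hr
  obtain ⟨⟨⟨⟨⟨ha, hb⟩, hc⟩, hd⟩, he⟩, hf⟩ := hr
  replace ha : a < 7 := Nat.lt_succ_of_le (Nat.le_of_ble_eq_true ha)
  replace hb : b < 7 := Nat.lt_succ_of_le (Nat.le_of_ble_eq_true hb)
  replace hc : c < 7 := Nat.lt_succ_of_le (Nat.le_of_ble_eq_true hc)
  replace hd : d < 7 := Nat.lt_succ_of_le (Nat.le_of_ble_eq_true hd)
  replace he : e < 7 := Nat.lt_succ_of_le (Nat.le_of_ble_eq_true he)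
  replace hf : f < 7 := Nat.lt_succ_of_le (Nat.le_of_ble_eq_true hf)
  unfold addRel
  rw [qf_addP _ ha hb hf hc hd he, qf_addP _ ha hb he hc hd hf, qf_addP _ ha hb hd hc he hf,
    qf_addP _ ha hb hc hd he hf]
  have := gp4 v a b c d e f
  push_cast
  linear_combination (m : ℝ) * this

def addRels : List RelT → List Int → List (List Int) → List (List Int)
  | r :: rs, m :: ms, U => addRels rs ms (addRel m r U)
  | _, _, U => U

lemma qf_addRels (v : ℕ → Fin 3 → ℝ) : ∀ (rs : List RelT) (ms : List Int) (U : List (List Int)),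
    rs.all okRel = true → qf (addRels rs ms U) (xs v) = qf U (xs v)
  | [], ms, U, _ => by simp [addRels]
  | r :: rs, [], U, _ => by simp [addRels]
  | r :: rs, m :: ms, U, h => by
      simp only [List.all_cons, Bool.and_eq_true] at h
      rw [addRels, qf_addRels v rs ms _ h.2, qf_addRel m r h.1]

/-- weights of the diagonal -/
def wts (lam : List Int) : List Int :=
  L35.map (fun t => lam.getD t.1 0 + (lam.getD t.2.1 0 + lam.getD t.2.2 0))

/-- bit of the sorted triple in a 20-bit mask; triples with `0` are positive -/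
def bit3 (m i j k : ℕ) : Bool :=
  match i with
  | 0 => false
  | i' + 1 => Nat.testBit m (ix i' (j - 1) (k - 1))

/-- the sign list -/
def chiL (m : ℕ) : List Int := L35.map (fun t => cond (bit3 m t.1 t.2.1 t.2.2) (-1) 1)

/-- the certificate check for one class -/
def clsOK (rels : List RelT) (m : ℕ) (kap K2 : Int) (lam mu : List Int) (B : List (List Int)) :
    Bool :=
  decide (0 < K2) && chk B (axpyU K2 []
    (addRels rels mu (axpyU (-kap) (diagU (wts lam)) (sqU (chiL m))))) (sclRow 0 (chiL 0))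

lemma clsOK_sound (rels : List RelT) (hrels : rels.all okRel = true) (m : ℕ) (kap K2 : Int)
    (lam mu : List Int) (B : List (List Int)) (h : clsOK rels m kap K2 lam mu B = true)
    (v : ℕ → Fin 3 → ℝ) :
    (kap : ℝ) * (dot (chiL m) (xs v)) ^ 2 ≤ dot (wts lam) (sq (xs v)) := by
  unfold clsOK at h
  rw [Bool.and_eq_true, decide_eq_true_eq] at h
  obtain ⟨hK, h⟩ := h
  have h1 := chk_sound _ _ _ (xs v) h
  rw [qf_axpyU, qf_addRels v _ _ _ hrels, qf_axpyU, qf_sqU, qf_diagU, dot_sclRow] at h1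
  have hK' : (0:ℝ) < (K2 : ℝ) := by exact_mod_cast hK
  push_cast at h1
  simp only [qf_nil_left, zero_add, zero_mul] at h1
  have h2 : 0 ≤ 2 * K2 * (dot (wts lam) (sq (xs v)) - kap * dot (chiL m) (xs v) ^ 2) := by linarith
  have h3 : 0 ≤ dot (wts lam) (sq (xs v)) - kap * dot (chiL m) (xs v) ^ 2 := by
    by_contra hneg
    push Not at hneg
    have : 2 * (K2:ℝ) * (dot (wts lam) (sq (xs v)) - kap * dot (chiL m) (xs v) ^ 2) < 0 :=
      mul_neg_of_pos_of_neg (by positivity) hneg
    linarith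
  linarith

end R758.Cube
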