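import Pool.Agent.R758.Cube.Tree

/-! Reorientation and relabelling; every general position configuration can be normalized. -/

namespace R758.Cube

def act (s : ℕ → Bool) (p : ℕ → ℕ) (v : ℕ → Fin 3 → ℝ) : ℕ → Fin 3 → ℝ :=
  fun i a => S (s i) * v (p i) a

lemma D_act (s : ℕ → Bool) (p : ℕ → ℕ) (v : ℕ → Fin 3 → ℝ) (i j k : ℕ) :
    D (act s p v) i j k = S (s i) * S (s j) * S (s k) * D v (p i) (p j) (p k) := by
  unfold D act; ring

/-- `p` permutes `0,…,6` -/
def PermOn (p : ℕ → ℕ) : Prop := (∀ i < 7, p i < 7) ∧ ∀ i < 7, ∀ j < 7, p i = p j → i = j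

lemma act_act (s s' : ℕ → Bool) (p p' : ℕ → ℕ) (v : ℕ → Fin 3 → ℝ) :
    act s' p' (act s p v) = act (fun i => xor (s' i) (s (p' i))) (fun i => p (p' i)) v := by
  funext i a
  simp only [act, S_xor]; ring

lemma PermOn.comp {p p' : ℕ → ℕ} (h : PermOn p) (h' : PermOn p') :
    PermOn (fun i => p (p' i)) :=
  ⟨fun i hi => h.1 _ (h'.1 i hi), fun i hi j hj e =>
    h'.2 i hi j hj (h.2 _ (h'.1 i hi) _ (h'.1 j hj) e)⟩

lemma PermOn.image {p : ℕ → ℕ} (h : PermOn p) :
    (Finset.range 7).image p = Finset.range 7 := by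
  apply Finset.eq_of_subset_of_card_le
  · intro x hx
    obtain ⟨i, hi, rfl⟩ := Finset.mem_image.mp hx
    exact Finset.mem_range.mpr (h.1 i (Finset.mem_range.mp hi))
  · rw [Finset.card_image_of_injOn]
    intro i hi j hj e
    exact h.2 i (by simpa using hi) j (by simpa using hj) e

lemma PermOn.sum {p : ℕ → ℕ} (h : PermOn p) (f : ℕ → ℝ) :
    ∑ i ∈ Finset.range 7, f (p i) = ∑ i ∈ Finset.range 7, f i := by
  conv_rhs => rw [← h.image]
  rw [Finset.sum_image]
  intro i hi j hj e
  exact h.2 i (by simpa using hi) j (by simpa using hj) e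

/-- general position -/
def GP (v : ℕ → Fin 3 → ℝ) : Prop := ∀ i j k, i < j → j < k → k < 7 → D v i j k ≠ 0

lemma GP.ne {v : ℕ → Fin 3 → ℝ} (h : GP v) {i j k : ℕ} (hi : i < 7) (hj : j < 7) (hk : k < 7)
    (hij : i ≠ j) (hjk : j ≠ k) (hik : i ≠ k) : D v i j k ≠ 0 := by
  rcases srt_spec i j k with ⟨s, a, b, c, -, hab, hbc, hc, hD⟩ | ⟨-, h', -⟩
  · rw [hD v]
    have := h a b c hab hbc (hc 7 hi hj hk)
    cases s <;> simpa using this
  · rcases h' with h' | h' | h'
    · exact absurd h' hij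
    · exact absurd h' hjk
    · exact absurd h' hik

lemma GP.act {v : ℕ → Fin 3 → ℝ} (h : GP v) (s : ℕ → Bool) {p : ℕ → ℕ} (hp : PermOn p) :
    GP (act s p v) := by
  intro i j k h1 h2 h3
  rw [D_act]
  have hS : ∀ b, S b ≠ 0 := by intro b; cases b <;> simp
  refine mul_ne_zero (mul_ne_zero (mul_ne_zero (hS _) (hS _)) (hS _)) ?_
  refine h.ne (hp.1 _ (by omega)) (hp.1 _ (by omega)) (hp.1 _ h3) ?_ ?_ ?_
  · intro e; have := hp.2 _ (by omega) _ (by omega) e; omega
  · intro e; have := hp.2 _ (by omega) _ (by omega) e; omega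
  · intro e; have := hp.2 _ (by omega) _ (by omega) e; omega

theorem exists_nrm {v : ℕ → Fin 3 → ℝ} (h : GP v) :
    ∃ (s : ℕ → Bool) (p : ℕ → ℕ), PermOn p ∧ Nrm (act s p v) := by
  classical
  -- signs
  set s0 : ℕ → Bool := fun i => decide (2 ≤ i ∧ D v 0 1 i < 0) with hs0
  set u : ℕ → Fin 3 → ℝ := act s0 id v with hu
  have hidp : PermOn id := ⟨fun i hi => hi, fun i _ j _ e => e⟩
  have hGu : GP u := h.act s0 hidp
  have hpos1 : ∀ i, 2 ≤ i → i < 7 → 0 < D u 0 1 i := by
    intro i hi hi7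
    have hne := h 0 1 i (by norm_num) (by omega) hi7
    have e0 : s0 0 = false := by simp [hs0]
    have e1 : s0 1 = false := by simp [hs0]
    rw [hu, D_act, e0, e1]
    rcases lt_or_gt_of_ne hne with h' | h'
    · have e2 : s0 i = true := by simp [hs0, hi, h']
      rw [e2]; simp; linarith
    · have e2 : s0 i = false := by simp [hs0, h'.le]
      rw [e2]; simpa using h'
  -- slopes
  set g : Fin 5 → ℝ := fun i => D u 0 2 (i.1 + 2) / D u 0 1 (i.1 + 2) with hg
  set τ : Equiv.Perm (Fin 5) := Tuple.sort g with hτ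
  have hmono : Monotone (g ∘ τ) := Tuple.monotone_sort g
  have key : ∀ j k : Fin 5, j ≠ k → g j ≤ g k → 0 < D u 0 (j.1 + 2) (k.1 + 2) := by
    intro j k hjk hle
    have hj := hpos1 (j.1 + 2) (by omega) (by omega)
    have hk := hpos1 (k.1 + 2) (by omega) (by omega)
    have h12 := hpos1 2 (le_refl _) (by norm_num)
    have hid : D u 0 1 2 * D u 0 (j.1 + 2) (k.1 + 2) =
        D u 0 1 (j.1 + 2) * D u 0 2 (k.1 + 2) - D u 0 1 (k.1 + 2) * D u 0 2 (j.1 + 2) := by
      unfold D; ring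
    have hne : D u 0 (j.1 + 2) (k.1 + 2) ≠ 0 := by
      refine hGu.ne (by norm_num) (by omega) (by omega) (by omega) ?_ (by omega)
      intro e; apply hjk; ext; omega
    have hge : 0 ≤ D u 0 1 (j.1 + 2) * D u 0 2 (k.1 + 2) - D u 0 1 (k.1 + 2) * D u 0 2 (j.1 + 2) := by
      simp only [hg] at hle
      rw [div_le_div_iff₀ hj hk] at hle
      linarith
    rw [← hid] at hge
    have : 0 ≤ D u 0 (j.1 + 2) (k.1 + 2) := by
      by_contra hc
      push Not at hc
      have := mul_neg_of_pos_of_neg h12 hc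
      linarith
    exact lt_of_le_of_ne this (Ne.symm hne)
  set p : ℕ → ℕ := fun i => if hi : 2 ≤ i ∧ i < 7 then (τ ⟨i - 2, by omega⟩).1 + 2 else i with hp
  have p0 : p 0 = 0 := by simp [hp]
  have p1 : p 1 = 1 := by simp [hp]
  have p2 : ∀ i, (hi : 2 ≤ i ∧ i < 7) → p i = (τ ⟨i - 2, by omega⟩).1 + 2 := by
    intro i hi
    simp only [hp]
    rw [dif_pos hi]
  have hP : PermOn p := by
    constructor
    · intro i hi
      by_cases h2 : 2 ≤ i
      · rw [p2 i ⟨h2, hi⟩]
        have := (τ ⟨i - 2, by omega⟩).2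
        omega
      · have : i = 0 ∨ i = 1 := by omega
        rcases this with rfl | rfl
        · rw [p0]; norm_num
        · rw [p1]; norm_num
    · intro i hi j hj e
      by_cases h2 : 2 ≤ i
      · by_cases h3 : 2 ≤ j
        · rw [p2 i ⟨h2, hi⟩, p2 j ⟨h3, hj⟩] at e
          have e' : (τ ⟨i - 2, by omega⟩) = (τ ⟨j - 2, by omega⟩) := by
            ext; omega
          have := τ.injective e'
          simp only [Fin.mk.injEq] at this
          omega
        · rw [p2 i ⟨h2, hi⟩] at e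
          have : j = 0 ∨ j = 1 := by omega
          rcases this with rfl | rfl
          · rw [p0] at e; omega
          · rw [p1] at e; omega
      · have hi' : i = 0 ∨ i = 1 := by omega
        by_cases h3 : 2 ≤ j
        · rw [p2 j ⟨h3, hj⟩] at e
          rcases hi' with rfl | rfl
          · rw [p0] at e; omega
          · rw [p1] at e; omega
        · have hj' : j = 0 ∨ j = 1 := by omega
          rcases hi' with rfl | rfl <;> rcases hj' with rfl | rfl
          · rfl
          · rw [p0, p1] at e; omega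
          · rw [p0, p1] at e; omega
          · rfl
  refine ⟨fun i => s0 (p i), p, hP, ?_⟩
  have hcomp : act (fun i => s0 (p i)) p v = act (fun _ => false) p u := by
    rw [hu, act_act]
    congr 1
    funext i
    simp
  rw [hcomp]
  have hDD : ∀ i j k, D (act (fun _ => false) p u) i j k = D u (p i) (p j) (p k) := by
    intro i j k; rw [D_act]; simp
  constructor
  · intro j k h0 hjk hk
    rw [hDD, p0]
    by_cases h2 : 2 ≤ j
    · rw [p2 j ⟨h2, by omega⟩, p2 k ⟨by omega, hk⟩]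
      refine key _ _ ?_ ?_
      · intro e
        have := τ.injective e
        simp only [Fin.mk.injEq] at this
        omega
      · exact hmono (show (⟨j - 2, by omega⟩ : Fin 5) ≤ ⟨k - 2, by omega⟩ from by
          rw [Fin.mk_le_mk]; omega)
    · have hj1 : j = 1 := by omega
      subst hj1
      rw [p1, p2 k ⟨by omega, hk⟩]
      exact hpos1 _ (by omega) (by have := (τ ⟨k - 2, by omega⟩).2; omega)
  · intro i j k hi hij hjk hk
    exact (hGu.act (fun _ => false) hP) i j k hij hjk hk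

lemma permOK_sound {p : ℕ} (h : permOK p = true) : PermOn (piOf p) := by
  unfold permOK at h
  rw [List.all_eq_true] at h
  have h1 : ∀ i < 7, piOf p i < 7 := by
    intro i hi
    have := h i (List.mem_range.mpr hi)
    rw [Bool.and_eq_true] at this
    exact Nat.lt_succ_of_le (Nat.le_of_ble_eq_true this.1)
  have h2 : ∀ i < 7, ∀ j < i, piOf p i ≠ piOf p j := by
    intro i hi j hj
    have := h i (List.mem_range.mpr hi)
    rw [Bool.and_eq_true, List.all_eq_true] at this
    have h3 := this.2 j (List.mem_range.mpr hj)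
    intro e
    rw [e] at h3
    simp at h3
  refine ⟨h1, fun i hi j hj e => ?_⟩
  rcases lt_trichotomy i j with h' | h' | h'
  · exact absurd e.symm (h2 j hj i h')
  · exact h'
  · exact absurd e (h2 i hi j h')

lemma bit3_pos {w : ℕ → Fin 3 → ℝ} (hw : Nrm w) {m : ℕ} (hR : Rec w 20 m) {i j k : ℕ}
    (h1 : i < j) (h2 : j < k) (h3 : k < 7) : 0 < S (bit3 m i j k) * D w i j k := by
  unfold bit3
  match i, h1 with
  | 0, h1 => simpa using hw.pos j k h1 h2 h3
  | (i' + 1), h1 =>
    obtain ⟨j', rfl⟩ : ∃ j', j = j' + 1 := ⟨j - 1, by omega⟩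
    obtain ⟨k', rfl⟩ : ∃ k', k = k' + 1 := ⟨k - 1, by omega⟩
    simp only [Nat.add_sub_cancel]
    have hne := hw.nz (i' + 1) (j' + 1) (k' + 1) (Nat.succ_pos _) h1 h2 h3
    have hr := hR i' j' k' (by omega) (by omega) (by omega) (L20_ix (by omega) (by omega) (by omega)).2
    cases hb : Nat.testBit m (ix i' j' k') with
    | true =>
      have := hr.mp hb
      simp only [S_true]; linarith
    | false =>
      have h' : ¬ D w (i' + 1) (j' + 1) (k' + 1) < 0 := by
        intro hc
        have := hr.mpr hc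
        rw [hb] at this; cases this
      simp only [S_false, one_mul]
      exact lt_of_le_of_ne (not_lt.mp h') (Ne.symm hne)

lemma neg3_pos {w : ℕ → Fin 3 → ℝ} (hw : Nrm w) {m : ℕ} (hR : Rec w 20 m) {a b c : ℕ}
    (ha : a < 7) (hb : b < 7) (hc : c < 7) (hab : a ≠ b) (hbc : b ≠ c) (hac : a ≠ c) :
    0 < S (neg3 m a b c) * D w a b c := by
  rcases srt_spec a b c with ⟨s, i, j, k, h1, hij, hjk, hk, hD⟩ | ⟨-, h', -⟩
  · unfold neg3
    rw [h1]
    simp only
    rw [S_xor, hD w]
    have := bit3_pos hw hR hij hjk (hk 7 ha hb hc)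
    have e : S s * S (bit3 m i j k) * (S s * D w i j k) =
        (S s * S s) * (S (bit3 m i j k) * D w i j k) := by ring
    rw [e, S_mul_self, one_mul]
    exact this
  · rcases h' with h' | h' | h'
    · exact absurd h' hab
    · exact absurd h' hbc
    · exact absurd h' hac

lemma L35_mem {t : ℕ × ℕ × ℕ} (ht : t ∈ L35) : t.1 < t.2.1 ∧ t.2.1 < t.2.2 ∧ t.2.2 < 7 := by
  have h : L35.all (fun t => decide (t.1 < t.2.1 ∧ t.2.1 < t.2.2 ∧ t.2.2 < 7)) = true := by
    decide +kernel
  rw [List.all_eq_true] at h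
  simpa using h t ht

theorem classify (reps : List ℕ) (t : T) (ht : chkT reps t 0 0 = true) {v : ℕ → Fin 3 → ℝ}
    (h : GP v) : ∃ c < reps.length, ∃ (s : ℕ → Bool) (p : ℕ → ℕ), PermOn p ∧
      ∀ t ∈ L35, 0 < S (bit3 (reps.getD c 0) t.1 t.2.1 t.2.2) * D (act s p v) t.1 t.2.1 t.2.2 := by
  obtain ⟨s, p, hp, hN⟩ := exists_nrm h
  have hR0 : Rec (act s p v) 0 0 := fun i j k _ _ _ h4 => absurd h4 (Nat.not_lt_zero _)
  obtain ⟨n, m, hl, hR⟩ := chkT_sound reps hN t 0 0 ht (by norm_num) hR0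
  unfold leafOK at hl
  simp only [Bool.and_eq_true] at hl
  obtain ⟨⟨hc, hq⟩, hl⟩ := hl
  rw [List.all_eq_true] at hl
  refine ⟨Nat.land n 15, Nat.le_of_ble_eq_true hc, ?_⟩
  have hP := permOK_sound hq
  set q := piOf (Nat.shiftRight n 11) with hqd
  set r := sOf (Nat.shiftRight n 4) with hrd
  refine ⟨fun i => xor (r i) (s (q i)), fun i => p (q i), hp.comp hP, fun t ht => ?_⟩
  rw [← act_act s r p q v]
  rw [D_act]
  have h1 := hl t ht
  rw [beq_iff_eq] at h1
  obtain ⟨a1, a2, a3⟩ := L35_mem ht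
  have hpos := neg3_pos hN hR (hP.1 t.1 (by omega)) (hP.1 t.2.1 (by omega)) (hP.1 t.2.2 a3)
    (fun e => by have := hP.2 _ (by omega) _ (by omega) e; omega)
    (fun e => by have := hP.2 _ (by omega) _ (by omega) e; omega)
    (fun e => by have := hP.2 _ (by omega) _ (by omega) e; omega)
  rw [← h1, S_xor, S_xor, S_xor]
  have e : S (r t.1) * (S (r t.2.1) * (S (r t.2.2) * S (neg3 m (q t.1) (q t.2.1) (q t.2.2)))) *
      (S (r t.1) * S (r t.2.1) * S (r t.2.2) * D (act s p v) (q t.1) (q t.2.1) (q t.2.2)) =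
      (S (r t.1) * S (r t.1)) * (S (r t.2.1) * S (r t.2.1)) * (S (r t.2.2) * S (r t.2.2)) *
      (S (neg3 m (q t.1) (q t.2.1) (q t.2.2)) * D (act s p v) (q t.1) (q t.2.1) (q t.2.2)) := by
    ring
  rw [e, S_mul_self, S_mul_self, S_mul_self]
  simpa using hpos

end R758.Cube
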