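import Pool.Agent.R758.Cube.Geo

/-! The projection of the cube on a three-dimensional subspace of `ℝ^7`. -/

set_option autoImplicit false

namespace R758.Cube

open MeasureTheory
open scoped RealInnerProductSpace

abbrev E (n : ℕ) := EuclideanSpace ℝ (Fin n)

/-- the unit cube -/
def cube (n : ℕ) : Set (E n) := {x | ∀ i, 0 ≤ x i ∧ x i ≤ 1}

/-- the volume, inside `H`, of the orthogonal projection of the unit cube onto `H` -/
noncomputable def F {n : ℕ} (H : Submodule ℝ (E n)) : ENNReal :=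
  volume (H.orthogonalProjectionOnto '' cube n)

/-- length of the projection of the `i`-th edge direction -/
noncomputable def len {n : ℕ} (H : Submodule ℝ (E n)) (i : Fin n) : ℝ :=
  ‖H.orthogonalProjectionOnto (EuclideanSpace.single i (1 : ℝ))‖

/-- coordinates of the projected basis vectors -/
noncomputable def vv {H : Submodule ℝ (E 7)} (b : OrthonormalBasis (Fin 3) ℝ H) :
    Fin 7 → Fin 3 → ℝ := fun i a => (b a : E 7) i

lemma repr_proj {H : Submodule ℝ (E 7)} (b : OrthonormalBasis (Fin 3) ℝ H) (x : E 7)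
    (a : Fin 3) : b.repr (H.orthogonalProjectionOnto x) a = ⟪(b a : E 7), x⟫ := by
  rw [b.repr_apply_apply, Submodule.inner_orthogonalProjectionOnto_eq_of_mem_left]

lemma inner_single' (y : E 7) (i : Fin 7) :
    ⟪y, EuclideanSpace.single i (1 : ℝ)⟫ = y i := by
  rw [EuclideanSpace.inner_single_right]; simp

lemma sum_single' (x : E 7) : x = ∑ i, x i • (EuclideanSpace.single i (1 : ℝ) : E 7) := by
  ext j
  simp [Pi.single_apply]

lemma repr_single {H : Submodule ℝ (E 7)} (b : OrthonormalBasis (Fin 3) ℝ H) (i : Fin 7) :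
    b.repr (H.orthogonalProjectionOnto (EuclideanSpace.single i (1 : ℝ))) =
      WithLp.toLp 2 (vv b i) := by
  ext a
  rw [repr_proj, inner_single']
  rfl

lemma image_cube {H : Submodule ℝ (E 7)} (b : OrthonormalBasis (Fin 3) ℝ H) :
    b.repr '' (H.orthogonalProjectionOnto '' cube 7) =
      zonotope (fun i => (WithLp.toLp 2 (vv b i) : E 3)) := by
  have hx : ∀ t : Fin 7 → ℝ, b.repr (H.orthogonalProjectionOnto (WithLp.toLp 2 t)) =
      ∑ j, t j • (WithLp.toLp 2 (vv b j) : E 3) := by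
    intro t
    conv_lhs => rw [sum_single' (WithLp.toLp 2 t)]
    rw [map_sum, map_sum]
    refine Finset.sum_congr rfl fun i _ => ?_
    rw [map_smul, map_smul, repr_single]
  ext y
  constructor
  · rintro ⟨_, ⟨x, hx', rfl⟩, rfl⟩
    refine ⟨fun i => x i, hx', ?_⟩
    have := hx (fun i => x i)
    rw [← this]
  · rintro ⟨t, ht, rfl⟩
    exact ⟨_, ⟨WithLp.toLp 2 t, ht, rfl⟩, hx t⟩

lemma F_eq_volume {H : Submodule ℝ (E 7)} (b : OrthonormalBasis (Fin 3) ℝ H) :
    F H = volume (zonotope (fun i => (WithLp.toLp 2 (vv b i) : E 3))) := by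
  have hmp := b.measurePreserving_repr
  have hc := isCompact_zonotope (fun i => (WithLp.toLp 2 (vv b i) : E 3))
  rw [← hmp.measure_preimage hc.measurableSet.nullMeasurableSet, ← image_cube b,
    Set.preimage_image_eq _ b.repr.injective]
  rfl

lemma vv_tight {H : Submodule ℝ (E 7)} (b : OrthonormalBasis (Fin 3) ℝ H) :
    Tight (ext7 (vv b)) := by
  intro a c
  rw [Finset.sum_range]
  simp only [ext7_coe]
  have h := b.inner_eq_ite a c
  rw [Submodule.coe_inner, PiLp.inner_apply] at h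
  simp only [vv]
  rw [← h]
  refine Finset.sum_congr rfl fun i _ => ?_
  simp [mul_comm]

lemma sum_SD_tight {v : ℕ → Fin 3 → ℝ} (h : Tight v) : ∑ a ∈ Finset.range 7, SD v a = 6 := by
  simp only [tight_SD h]
  rw [← Finset.mul_sum, tight_norm h]; norm_num

lemma S1_nonneg (v : ℕ → Fin 3 → ℝ) : 0 ≤ S1 v :=
  Finset.sum_nonneg fun _ _ => Finset.sum_nonneg fun _ _ => Finset.sum_nonneg fun _ _ =>
    abs_nonneg _

lemma S1_pos {v : ℕ → Fin 3 → ℝ} (h : Tight v) : 0 < S1 v := by
  rcases (S1_nonneg v).lt_or_eq with h' | h'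
  · exact h'
  · exfalso
    have hz : ∀ i < 7, ∀ j < 7, ∀ k < 7, D v i j k = 0 := by
      intro i hi j hj k hk
      have h0 := h'.symm
      unfold S1 at h0
      have n3 : ∀ i j k, 0 ≤ |D v i j k| := fun _ _ _ => abs_nonneg _
      rw [Finset.sum_eq_zero_iff_of_nonneg (fun i _ => Finset.sum_nonneg fun _ _ =>
        Finset.sum_nonneg fun _ _ => abs_nonneg _)] at h0
      have h1 := h0 i (Finset.mem_range.mpr hi)
      rw [Finset.sum_eq_zero_iff_of_nonneg (fun j _ => Finset.sum_nonneg fun _ _ =>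
        abs_nonneg _)] at h1
      have h2 := h1 j (Finset.mem_range.mpr hj)
      rw [Finset.sum_eq_zero_iff_of_nonneg (fun k _ => abs_nonneg _)] at h2
      exact abs_eq_zero.mp (h2 k (Finset.mem_range.mpr hk))
    have h6 := sum_SD_tight h
    have : ∑ a ∈ Finset.range 7, SD v a = 0 := by
      apply Finset.sum_eq_zero
      intro a ha
      unfold SD
      apply Finset.sum_eq_zero
      intro j hj
      apply Finset.sum_eq_zero
      intro k hk
      rw [hz a (Finset.mem_range.mp ha) j (Finset.mem_range.mp hj) k (Finset.mem_range.mp hk)]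
      norm_num
    linarith

lemma F_eq {H : Submodule ℝ (E 7)} (b : OrthonormalBasis (Fin 3) ℝ H) :
    F H = ENNReal.ofReal (S1 (ext7 (vv b)) / 6) := by
  have h1 := Dt_eq_S1 (vv b)
  have h2 := S1_pos (vv_tight b)
  rw [F_eq_volume b, volume_zonotope (m := 2)]
  · congr 1
    linarith
  · have : 0 < H354ZN.Dt (m := 2) (vv b) := by linarith
    exact this

lemma len_sq {H : Submodule ℝ (E 7)} (b : OrthonormalBasis (Fin 3) ℝ H) (i : Fin 7) :
    len H i ^ 2 = (vv b i) 0 ^ 2 + (vv b i) 1 ^ 2 + (vv b i) 2 ^ 2 := by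
  unfold len
  rw [← b.repr.norm_map, repr_single, EuclideanSpace.norm_sq_eq, Fin.sum_univ_three]
  simp

theorem F_le_of_equal {H : Submodule ℝ (E 7)} (hH : Module.finrank ℝ H = 3)
    (he : ∀ i j, len H i = len H j) : F H ≤ ENNReal.ofReal (Real.sqrt (157 / 5)) := by
  set b : OrthonormalBasis (Fin 3) ℝ H := (stdOrthonormalBasis ℝ H).reindex (finCongr hH)
  rw [F_eq b]
  apply ENNReal.ofReal_le_ofReal
  have ht := vv_tight b
  have hn := tight_norm ht
  rw [Finset.sum_range] at hn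
  simp only [ext7_coe, ← len_sq b] at hn
  have hn' : ∀ i : Fin 7, len H i ^ 2 = 3 / 7 := by
    intro i
    have : ∀ j, len H j = len H i := fun j => he j i
    simp only [this] at hn
    rw [Finset.sum_const, Finset.card_univ, Fintype.card_fin, nsmul_eq_mul] at hn
    push_cast at hn
    linarith
  have hSD : ∀ a < 7, SD (ext7 (vv b)) a = 6 / 7 := by
    intro a ha
    rw [tight_SD ht]
    have h1 := hn' ⟨a, ha⟩
    rw [len_sq b] at h1
    have h2 : ext7 (vv b) a = vv b ⟨a, ha⟩ := ext7_coe (vv b) ⟨a, ha⟩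
    rw [h2, h1]; norm_num
  have hm := main_bound _ hSD
  apply Real.le_sqrt_of_sq_le
  rw [div_pow]
  linarith

/-- the integer configuration -/
def AZ : ℕ → Fin 3 → ℝ
  | 0 => ![9, 0, 0]
  | 1 => ![0, 10, 0]
  | 2 => ![24, 22, 10]
  | 3 => ![34, 27, 22]
  | 4 => ![38, 22, 21]
  | 5 => ![23, 10, 18]
  | 6 => ![0, 0, 7]
  | _ => 0

/-- rows of the configuration -/
noncomputable def rowA (c : Fin 3) : E 7 := WithLp.toLp 2 fun i => AZ i c

/-- the special subspace -/
noncomputable def H0 : Submodule ℝ (E 7) := Submodule.span ℝ (Set.range rowA)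

lemma rowA_indep : LinearIndependent ℝ rowA := by
  rw [Fintype.linearIndependent_iff]
  intro g hg
  rw [Fin.sum_univ_three] at hg
  have h0 : (g 0 • rowA 0 + g 1 • rowA 1 + g 2 • rowA 2) 0 = (0 : E 7) 0 := by rw [hg]
  have h1 : (g 0 • rowA 0 + g 1 • rowA 1 + g 2 • rowA 2) 1 = (0 : E 7) 1 := by rw [hg]
  have h6 : (g 0 • rowA 0 + g 1 • rowA 1 + g 2 • rowA 2) 6 = (0 : E 7) 6 := by rw [hg]
  simp [rowA, AZ] at h0 h1 h6
  intro i
  fin_cases i
  · exact h0
  · exact h1
  · exact h6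

lemma finrank_H0 : Module.finrank ℝ H0 = 3 := by
  unfold H0
  rw [finrank_span_eq_card rowA_indep]; rfl

/-- sum of the absolute values of the minors -/
lemma sum_AZ : (L35.map fun t => |D AZ t.1 t.2.1 t.2.2|).sum = 57210 := by
  simp [L35, D, AZ]
  norm_num [abs_of_nonneg, abs_of_neg]

lemma sumsq_AZ : (L35.map fun t => (D AZ t.1 t.2.1 t.2.2) ^ 2).sum = 104232508 := by
  simp [L35, D, AZ]
  norm_num

lemma S1_AZ : S1 AZ = 6 * 57210 := by rw [S1_eq, sum_AZ]

lemma SD_AZ : ∑ a ∈ Finset.range 7, SD AZ a = 6 * 104232508 := by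
  unfold SD
  rw [sum3L (fun i j k => (D AZ i j k) ^ 2), sumsq_AZ]
  · intro i j k; rw [D_swap12]; ring
  · intro i j k; rw [D_swap23]; ring
  · intro i k; rw [D_rep12]; ring

lemma S1_scale {v w : ℕ → Fin 3 → ℝ} {δ : ℝ} (h : ∀ i j k, D v i j k = δ * D w i j k) :
    S1 v = |δ| * S1 w := by
  unfold S1
  simp only [h, abs_mul, ← Finset.mul_sum]

lemma SD_scale {v w : ℕ → Fin 3 → ℝ} {δ : ℝ} (h : ∀ i j k, D v i j k = δ * D w i j k) (a : ℕ) :
    SD v a = δ ^ 2 * SD w a := by
  unfold SD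
  simp only [h, mul_pow, ← Finset.mul_sum]

theorem lt_F_H0 : ENNReal.ofReal (Real.sqrt (157 / 5)) < F H0 := by
  set b : OrthonormalBasis (Fin 3) ℝ H0 := (stdOrthonormalBasis ℝ H0).reindex (finCongr finrank_H0)
  have hmem : ∀ a, ∃ c : Fin 3 → ℝ, ∑ i, c i • rowA i = (b a : E 7) := fun a =>
    (Submodule.mem_span_range_iff_exists_fun ℝ).mp (b a).2
  choose C hC using hmem
  have hv : ∀ i a, ext7 (vv b) i a = C a 0 * AZ i 0 + C a 1 * AZ i 1 + C a 2 * AZ i 2 := by
    intro i a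
    by_cases hi : i < 7
    · have h1 : ext7 (vv b) i a = (b a : E 7) ⟨i, hi⟩ := by
        have := ext7_coe (vv b) ⟨i, hi⟩
        rw [show ext7 (vv b) i = vv b ⟨i, hi⟩ from this]
        rfl
      rw [h1, ← hC a, Fin.sum_univ_three]
      simp [rowA]
    · obtain ⟨n, rfl⟩ : ∃ n, i = n + 7 := ⟨i - 7, by omega⟩
      have h1 : ext7 (vv b) (n + 7) = 0 := by
        unfold ext7
        rw [dif_neg (by omega)]
      have h2 : AZ (n + 7) = 0 := rfl
      rw [h1, h2]
      simp
  set δ : ℝ := C 0 0 * (C 1 1 * C 2 2 - C 1 2 * C 2 1) - C 0 1 * (C 1 0 * C 2 2 - C 1 2 * C 2 0)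
    + C 0 2 * (C 1 0 * C 2 1 - C 1 1 * C 2 0) with hδ
  have hD : ∀ i j k, D (ext7 (vv b)) i j k = δ * D AZ i j k := by
    intro i j k
    unfold D
    simp only [hv, hδ]
    ring
  have h1 := S1_scale hD
  have h2 : ∑ a ∈ Finset.range 7, SD (ext7 (vv b)) a = δ ^ 2 * (6 * 104232508) := by
    simp only [SD_scale hD]
    rw [← Finset.mul_sum, SD_AZ]
  rw [sum_SD_tight (vv_tight b)] at h2
  rw [S1_AZ] at h1
  have h3 : (S1 (ext7 (vv b)) / 6) ^ 2 = δ ^ 2 * 57210 ^ 2 := by
    rw [h1, div_pow, mul_pow, sq_abs]; ring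
  have h4 : 157 / 5 < (S1 (ext7 (vv b)) / 6) ^ 2 := by
    rw [h3]
    have : δ ^ 2 = 1 / 104232508 := by linarith
    rw [this]; norm_num
  rw [F_eq b]
  have h5 := S1_pos (vv_tight b)
  rw [ENNReal.ofReal_lt_ofReal_iff (by positivity)]
  exact (Real.sqrt_lt' (by positivity)).mpr h4

end R758.Cube
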