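import Pool.Agent.R758.Cube.Minor

/-! Enumeration of the sign patterns of seven vectors in general position. -/

namespace R758.Cube

/-- negativity bit of an arbitrary triple -/
def neg3 (m a b c : ℕ) : Bool :=
  match srt a b c with
  | some (s, i, j, k) => xor s (bit3 m i j k)
  | none => false

def piOf (p i : ℕ) : ℕ := Nat.land (Nat.shiftRight p (3 * i)) 7
def sOf (s i : ℕ) : Bool := Nat.testBit s i

def permOK (p : ℕ) : Bool :=
  (List.range 7).all fun i => Nat.ble (piOf p i) 6 &&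
    (List.range i).all fun j => !(Nat.beq (piOf p i) (piOf p j))


def leafOK (reps : List ℕ) (n m : ℕ) : Bool :=
  Nat.ble (Nat.land n 15 + 1) reps.length && permOK (Nat.shiftRight n 11) &&
  L35.all fun t =>
    xor (sOf (Nat.shiftRight n 4) t.1) (xor (sOf (Nat.shiftRight n 4) t.2.1)
      (xor (sOf (Nat.shiftRight n 4) t.2.2)
        (neg3 m (piOf (Nat.shiftRight n 11) t.1) (piOf (Nat.shiftRight n 11) t.2.1)
          (piOf (Nat.shiftRight n 11) t.2.2)))) == bit3 (reps.getD (Nat.land n 15) 0) t.1 t.2.1 t.2.2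

/-- certificate trees -/
inductive T
  | X (q : ℕ)
  | L (n : ℕ)
  | N (l r : T)

def pat (m d x y z : ℕ) : Bool :=
  Nat.ble (x + 1) d && Nat.ble (y + 1) d && Nat.ble (z + 1) d &&
    (Nat.testBit m x == Nat.testBit m z) && !(Nat.testBit m x == Nat.testBit m y)

/-- forbidden pattern -/
def viol (m d ty i j k l : ℕ) : Bool :=
  Nat.ble (i + 1) j && Nat.ble (j + 1) k && Nat.ble (k + 1) l && Nat.ble l 5 &&
  (match ty with
    | 0 => pat m d (ix i j k) (ix i j l) (ix i k l)
    | 1 => pat m d (ix i j k) (ix i j l) (ix j k l)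
    | 2 => pat m d (ix i j k) (ix i k l) (ix j k l)
    | _ => pat m d (ix i j l) (ix i k l) (ix j k l))

def chkT (reps : List ℕ) : T → ℕ → ℕ → Bool
  | .X q, d, m => viol m d (Nat.land q 3) (Nat.land (Nat.shiftRight q 2) 7)
      (Nat.land (Nat.shiftRight q 5) 7) (Nat.land (Nat.shiftRight q 8) 7)
      (Nat.land (Nat.shiftRight q 11) 7)
  | .L n, d, m => Nat.beq d 20 && leafOK reps n m
  | .N l r, d, m => Nat.ble (d + 1) 20 && chkT reps l (d + 1) m &&
      chkT reps r (d + 1) (2 ^ d + m)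

/-- decode a tree from a bit stream -/
def parse : ℕ → ℕ → T × ℕ
  | 0, s => (.X 0, s)
  | f + 1, s =>
    match Nat.land s 3 with
    | 0 =>
      match parse f (Nat.shiftRight s 2) with
      | (l, s1) =>
        match parse f s1 with
        | (r, s2) => (.N l r, s2)
    | 1 => (.X (Nat.land (Nat.shiftRight s 2) 16383), Nat.shiftRight s 16)
    | _ => (.L (Nat.land (Nat.shiftRight s 2) 4294967295), Nat.shiftRight s 34)

/-- the twenty triples -/
def L20 : List (ℕ × ℕ × ℕ) :=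
  [(0,1,2),
   (0,1,3),(0,2,3),(1,2,3),
   (0,1,4),(0,2,4),(1,2,4),(0,3,4),(1,3,4),(2,3,4),
   (0,1,5),(0,2,5),(1,2,5),(0,3,5),(1,3,5),(2,3,5),(0,4,5),(1,4,5),(2,4,5),(3,4,5)]

lemma L20_ix' : ∀ k j i : Fin 6, i.1 < j.1 → j.1 < k.1 →
    L20[ix i j k]? = some (i.1, j.1, k.1) ∧ ix i.1 j.1 k.1 < 20 := by
  decide +kernel

lemma L20_ix {i j k : ℕ} (h1 : i < j) (h2 : j < k) (h3 : k < 6) :
    L20[ix i j k]? = some (i, j, k) ∧ ix i j k < 20 :=
  L20_ix' ⟨k, h3⟩ ⟨j, h2.trans h3⟩ ⟨i, (h1.trans h2).trans h3⟩ h1 h2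

/-- the mask `m` records the signs at positions below `d` -/
def Rec (v : ℕ → Fin 3 → ℝ) (d m : ℕ) : Prop :=
  ∀ i j k, i < j → j < k → k < 6 → ix i j k < d →
    (Nat.testBit m (ix i j k) = true ↔ D v (i + 1) (j + 1) (k + 1) < 0)

/-- normalized general position -/
structure Nrm (v : ℕ → Fin 3 → ℝ) : Prop where
  pos : ∀ j k, 0 < j → j < k → k < 7 → 0 < D v 0 j k
  nz : ∀ i j k, 0 < i → i < j → j < k → k < 7 → D v i j k ≠ 0

lemma mono_aux {P Q R x y z : ℝ} (hP : 0 < P) (hQ : 0 < Q) (hR : 0 < R)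
    (h : P * y = Q * x + R * z) (hx : x ≠ 0) (hz : z ≠ 0) (hy : y ≠ 0)
    (h1 : (x < 0 ↔ z < 0)) (h2 : ¬ (x < 0 ↔ y < 0)) : False := by
  rcases lt_or_gt_of_ne hx with hx' | hx'
  · have hz' : z < 0 := h1.mp hx'
    have hy' : ¬ y < 0 := fun hy' => h2 ⟨fun _ => hy', fun _ => hx'⟩
    have hy'' : 0 < y := lt_of_le_of_ne (not_lt.mp hy') (Ne.symm hy)
    have := mul_pos hP hy''
    have := mul_neg_of_pos_of_neg hQ hx'
    have := mul_neg_of_pos_of_neg hR hz'
    linarith
  · have hz' : 0 < z := by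
      rcases lt_or_gt_of_ne hz with h' | h'
      · exact absurd (h1.mpr h') (not_lt.mpr hx'.le)
      · exact h'
    have hy' : y < 0 := by
      by_contra hy'
      exact h2 ⟨fun h' => absurd h' (not_lt.mpr hx'.le), fun h' => absurd h' hy'⟩
    have := mul_neg_of_pos_of_neg hP hy'
    have := mul_pos hQ hx'
    have := mul_pos hR hz'
    linarith

lemma pat_false {v : ℕ → Fin 3 → ℝ} {d m : ℕ} (hR : Rec v d m)
    {i j k i' j' k' i'' j'' k'' : ℕ} (h1 : i < j) (h2 : j < k) (h3 : k < 6)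
    (h1' : i' < j') (h2' : j' < k') (h3' : k' < 6)
    (h1'' : i'' < j'') (h2'' : j'' < k'') (h3'' : k'' < 6)
    (h : pat m d (ix i j k) (ix i' j' k') (ix i'' j'' k'') = true) :
    (D v (i + 1) (j + 1) (k + 1) < 0 ↔ D v (i'' + 1) (j'' + 1) (k'' + 1) < 0) ∧
    ¬ (D v (i + 1) (j + 1) (k + 1) < 0 ↔ D v (i' + 1) (j' + 1) (k' + 1) < 0) := by
  unfold pat at h
  simp only [Bool.and_eq_true, Bool.not_eq_true', beq_iff_eq] at h
  obtain ⟨⟨⟨⟨ha, hb⟩, hc⟩, he⟩, hne⟩ := h
  have A := hR i j k h1 h2 h3 (Nat.le_of_ble_eq_true ha)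
  have B := hR i' j' k' h1' h2' h3' (Nat.le_of_ble_eq_true hb)
  have C := hR i'' j'' k'' h1'' h2'' h3'' (Nat.le_of_ble_eq_true hc)
  rw [← A, ← B, ← C]
  constructor
  · rw [he]
  · intro h'
    have : Nat.testBit m (ix i j k) = Nat.testBit m (ix i' j' k') := by
      rw [Bool.eq_iff_iff]; exact h'
    rw [this] at hne
    simp at hne

lemma viol_false {v : ℕ → Fin 3 → ℝ} (hN : Nrm v) {d m : ℕ} (hR : Rec v d m)
    (ty i j k l : ℕ) (h : viol m d ty i j k l = true) : False := by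
  unfold viol at h
  simp only [Bool.and_eq_true] at h
  obtain ⟨⟨⟨⟨hij, hjk⟩, hkl⟩, hl⟩, h⟩ := h
  replace hij : i < j := Nat.le_of_ble_eq_true hij
  replace hjk : j < k := Nat.le_of_ble_eq_true hjk
  replace hkl : k < l := Nat.le_of_ble_eq_true hkl
  replace hl : l < 6 := Nat.lt_succ_of_le (Nat.le_of_ble_eq_true hl)
  have p : ∀ {a b : ℕ}, a < b → b < 6 → 0 < D v 0 (a + 1) (b + 1) := fun {a b} h1 h2 =>
    hN.pos (a + 1) (b + 1) (Nat.succ_pos _) (by omega) (by omega)
  have nz : ∀ {a b c : ℕ}, a < b → b < c → c < 6 → D v (a + 1) (b + 1) (c + 1) ≠ 0 :=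
    fun {a b c} h1 h2 h3 => hN.nz _ _ _ (Nat.succ_pos _) (by omega) (by omega) (by omega)
  match ty, h with
  | 0, h =>
    obtain ⟨h1, h2⟩ := pat_false hR hij hjk (by omega) hij (hjk.trans hkl) hl (hij.trans hjk) hkl hl h
    refine mono_aux (p (hij.trans hjk) (by omega)) (p (hij.trans (hjk.trans hkl)) hl)
      (p hij (by omega)) ?_ (nz hij hjk (by omega)) (nz (hij.trans hjk) hkl hl)
      (nz hij (hjk.trans hkl) hl) h1 h2
    unfold D; ring
  | 1, h =>
    obtain ⟨h1, h2⟩ := pat_false hR hij hjk (by omega) hij (hjk.trans hkl) hl hjk hkl hl h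
    refine mono_aux (p hjk (by omega)) (p (hjk.trans hkl) hl)
      (p hij (by omega)) ?_ (nz hij hjk (by omega)) (nz hjk hkl hl)
      (nz hij (hjk.trans hkl) hl) h1 h2
    unfold D; ring
  | 2, h =>
    obtain ⟨h1, h2⟩ := pat_false hR hij hjk (by omega) (hij.trans hjk) hkl hl hjk hkl hl h
    refine mono_aux (p hjk (by omega)) (p hkl hl)
      (p (hij.trans hjk) (by omega)) ?_ (nz hij hjk (by omega)) (nz hjk hkl hl)
      (nz (hij.trans hjk) hkl hl) h1 h2
    unfold D; ring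
  | (n + 3), h =>
    obtain ⟨h1, h2⟩ := pat_false hR hij (hjk.trans hkl) hl (hij.trans hjk) hkl hl hjk hkl hl h
    refine mono_aux (p (hjk.trans hkl) hl) (p hkl hl)
      (p (hij.trans (hjk.trans hkl)) (by omega)) ?_ (nz hij (hjk.trans hkl) (by omega))
      (nz hjk hkl hl) (nz (hij.trans hjk) hkl hl) h1 h2
    unfold D; ring

theorem chkT_sound (reps : List ℕ) {v : ℕ → Fin 3 → ℝ} (hN : Nrm v) : ∀ (t : T) (d m : ℕ),
    chkT reps t d m = true → m < 2 ^ d → Rec v d m →
    ∃ n m', leafOK reps n m' = true ∧ Rec v 20 m'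
  | .X q, d, m => fun h _ hR => (viol_false hN hR _ _ _ _ _ h).elim
  | .L n, d, m => fun h _ hR => by
      unfold chkT at h
      rw [Bool.and_eq_true] at h
      have hd : d = 20 := Nat.eq_of_beq_eq_true h.1
      subst hd
      exact ⟨n, m, h.2, hR⟩
  | .N l r, d, m => fun h hm hR => by
      unfold chkT at h
      simp only [Bool.and_eq_true] at h
      obtain ⟨⟨hd, hl⟩, hr⟩ := h
      replace hd : d < 20 := Nat.le_of_ble_eq_true hd
      by_cases hs : D v ((L20.getD d (0,0,0)).1 + 1) ((L20.getD d (0,0,0)).2.1 + 1)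
          ((L20.getD d (0,0,0)).2.2 + 1) < 0
      · refine chkT_sound reps hN r (d + 1) _ hr ?_ ?_
        · rw [pow_succ]; omega
        · intro i j k h1 h2 h3 h4
          rcases Nat.lt_succ_iff_lt_or_eq.mp h4 with h5 | h5
          · rw [Nat.testBit_two_pow_add_gt h5]
            exact hR i j k h1 h2 h3 h5
          · have hx := (L20_ix h1 h2 h3).1
            rw [h5] at hx
            rw [h5, Nat.testBit_two_pow_add_eq, Nat.testBit_lt_two_pow hm]
            rw [List.getD_eq_getElem?_getD, hx] at hs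
            simp only [Option.getD_some] at hs
            simp [hs]
      · refine chkT_sound reps hN l (d + 1) _ hl ?_ ?_
        · rw [pow_succ]; omega
        · intro i j k h1 h2 h3 h4
          rcases Nat.lt_succ_iff_lt_or_eq.mp h4 with h5 | h5
          · exact hR i j k h1 h2 h3 h5
          · have hx := (L20_ix h1 h2 h3).1
            rw [h5] at hx
            rw [h5, Nat.testBit_lt_two_pow hm]
            rw [List.getD_eq_getElem?_getD, hx] at hs
            simp only [Option.getD_some] at hs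
            simp [hs]

end R758.Cube
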